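import Pool.Agent.Helper99.LN.Defs
import Pool.Agent.Helper13.MP.Defs

/-!
# Project ML (MP_e66f84_ag): projects M and MP for cyclic covers of degree `n`

`k` number field, `Y` any curve over `k`, `X : y ^ n = h` a cyclic cover of `Y` of degree `n`
(`LN.GoodCurve k n h`), twists `y ^ n = c h`, `c ∈ k* / k* ^ n`; `ℓ` a prime which divides `n`, such
that `k` contains the `ℓ`-th roots of unity.  The definitions and the block statements are those of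
projects M and MP, with `ℓ` in place of `2`, the `ℓ`-th roots of unity of `k` in place of the signs,
and the definitions `Geo`, `Act`, `HasSec`, `GoodCurve`, `IsRam`, `DecPt` of project LN (for `n`).
-/

set_option autoImplicit false

namespace Pool.Agent.ML

open VC IntermediateField NumberField IsDedekindDomain Pool.Agent.SC
open Pool.Agent.L (Inert L0 MM SamePlace OverV)
open Pool.Agent.LN (Geo Act HasSec GoodCurve IsRam DecPt)
open Pool.Agent.M (UR NN Moves OverPl inL0)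
open Pool.Agent.HG (Pr nm Ctx Gd)

noncomputable section

/-- `k` contains the `ℓ`-th roots of unity -/
def HasMu (k : Type) [Field k] (ℓ : ℕ) : Prop := ∃ ζ : k, IsPrimitiveRoot ζ ℓ

/-! ## Classes of divisors of order a power of `ℓ`, as roots of functions -/

section defs

variable {U : Type} [Field U]

/-- `NN n` and one more element -/
def NZ (E K0 : Type) [Field E] [Field K0] [Algebra E U] [Algebra K0 U] (n : ℕ) (z : U) :
    IntermediateField E U :=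
  IntermediateField.adjoin E (Set.range (algebraMap K0 U) ∪ {w | UR E K0 n w} ∪ {z})

/-- `P` is a branch point of `y ^ n = h` -/
def BPl {E K0 : Type} [Field E] [Field K0] [Algebra E U] [Algebra K0 U] (n : ℕ) (h : K0)
    (P : Place E (L0 E K0 (U := U))) : Prop := ¬ (n : ℤ) ∣ ord P.ring (inL0 h)

/-- `z` is the `n`-th root of a function with divisor `b - b'` modulo `n` -/
def IsZ {E K0 : Type} [Field E] [Field K0] [Algebra E U] [Algebra K0 U] (n : ℕ)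
    (b b' : Place E (L0 E K0 (U := U))) (z : U) : Prop :=
  z ≠ 0 ∧ ∃ f : L0 E K0 (U := U), (f : U) = z ^ n ∧ (n : ℤ) ∣ ord b.ring f - 1 ∧
    (n : ℤ) ∣ ord b'.ring f + 1 ∧
    ∀ P : Place E (L0 E K0 (U := U)), P ≠ b → P ≠ b' → (n : ℤ) ∣ ord P.ring f

/-- Some automorphism over `L0` which commutes with `φ` on the level `ℓ ^ m` is not trivial on the
level `ℓ`. -/
def QM (E K0 : Type) [Field E] [Field K0] [Algebra E U] [Algebra K0 U] (ℓ m : ℕ) (φ : U ≃+* U) :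
    Prop :=
  ∃ a : U ≃ₐ[E] U, (∀ x ∈ L0 E K0 (U := U), a x = x) ∧
    (∀ w : U, UR E K0 (ℓ ^ m) w → a (φ w) = φ (a w)) ∧ ∃ w : U, UR E K0 ℓ w ∧ a w ≠ w

/-- `ε φ` is compatible with the values of `z` at the places of `NZ ℓ z` above the place `P` of
`NN ℓ`: if `z t` (`t ∈ L0`) has the value `ρ ≠ 0` at such a place, then `ε φ(z t)` has the value
`φ(ρ)`. -/
def IsSg {k E K0 : Type} [Field k] [Field E] [Field K0] [Algebra E U] [Algebra K0 U] [Algebra k U]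
    (ℓ : ℕ) (φ : U ≃+* U) (P : Place E (NN E K0 ℓ (U := U))) (z : U) (ε : rootsOfUnity ℓ k) :
    Prop :=
  ∀ Q : Place E (NZ E K0 ℓ z), OverPl P Q → ∀ t ∈ L0 E K0 (U := U), ∀ ρ ρ' : E, ρ ≠ 0 →
    φ (algebraMap E U ρ) = algebraMap E U ρ' → ∀ x x' : NZ E K0 ℓ z,
    (x : U) = z * t - algebraMap E U ρ →
    (x' : U) = algebraMap k U ((ε : kˣ) : k) * φ (z * t) - algebraMap E U ρ' →
    Q.ring.valuation x < 1 → Q.ring.valuation x' < 1

open scoped Classical in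
/-- the `sign` (a root of unity) of `φ` at the place `P` of `NN ℓ` -/
def sgn {k E K0 : Type} [Field k] [Field E] [Field K0] [Algebra E U] [Algebra K0 U] [Algebra k U]
    (ℓ : ℕ) (φ : U ≃+* U) (P : Place E (NN E K0 ℓ (U := U))) (z : U) : rootsOfUnity ℓ k :=
  if h : ∃ ε : rootsOfUnity ℓ k, IsSg ℓ φ P z ε then h.choose else 1

end defs

/-! ## Groups -/

/-- BLOCK W2 (Haar-Zariski), for a prime `ℓ`. -/
def StmtW2 : Prop :=
  ∀ (ℓ : ℕ), ℓ.Prime →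
    ∀ (G : Type) [Group G] [TopologicalSpace G] [IsTopologicalGroup G] [CompactSpace G] [T2Space G]
    (P : Type) [AddCommGroup P] [DistribMulAction G P],
    (∀ x : P, ∃ m : ℕ, ℓ ^ m • x = 0) → (∀ x : P, ∃ y : P, ℓ • y = x) →
    {x : P | ℓ • x = 0}.Finite → (∀ x : P, IsOpen {g : G | g • x = x}) →
    (∀ H : Subgroup G, IsOpen (H : Set G) → ∀ x : G, ∃ g ∈ H, {p : P | (g * x) • p = p}.Finite) →
    ∀ ε : ℝ, 0 < ε → ∃ j : ℕ, 0 < j ∧ ∀ N : Subgroup G, N.Normal → IsOpen (N : Set G) →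
      (∀ g ∈ N, ∀ p : P, ℓ ^ j • p = 0 → g • p = p) →
      (Nat.card {q : G ⧸ N // ∃ g : G, (g : G ⧸ N) = q ∧
        ∃ p : P, ℓ ^ j • p = 0 ∧ ℓ ^ (j - 1) • p ≠ 0 ∧ g • p = p} : ℝ) ≤ ε * Nat.card (G ⧸ N)

/-- BLOCK COC: Hilbert 90 for roots of unity of `k`. -/
def StmtCOC : Prop :=
  ∀ (k E : Type) [Field k] [CharZero k] [Field E] [Algebra k E] [IsGalois k E] (ℓ : ℕ) (S : Type)
    [Finite S] [MulAction (E ≃ₐ[k] E) S] (ε : (E ≃ₐ[k] E) → S → rootsOfUnity ℓ k), 0 < ℓ →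
    (∀ g g' π, ε (g * g') π = ε g' π * ε g (g' • π)) →
    (∀ π, ∃ L : IntermediateField k E, FiniteDimensional k L ∧
      ∀ g : E ≃ₐ[k] E, (∀ x ∈ L, g x = x) → ε g π = 1 ∧ g • π = π) →
    ∃ δ : S → E, (∀ π, δ π ≠ 0) ∧
      ∀ g π, g (δ π) = algebraMap k E ((ε g π : kˣ) : k) * δ (g • π)

/-! ## Arithmetic -/

/-- BLOCK HF: finitely many characters of order `ℓ` are unramified outside a finite set. -/
def StmtHF : Prop :=
  ∀ (k E : Type) [Field k] [NumberField k] [Field E] [IsAlgClosed E] [Algebra k E]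
    [Algebra.IsAlgebraic k E] (ℓ : ℕ), ℓ.Prime → HasMu k ℓ →
    ∀ L : IntermediateField k E, FiniteDimensional k L → ∀ Bad : Set (Pr k), Bad.Finite →
    {χ : L.fixingSubgroup →* rootsOfUnity ℓ k |
      (∃ L' : IntermediateField k E, FiniteDimensional k L' ∧
        ∀ g : L.fixingSubgroup, (∀ x ∈ L', (g : E ≃ₐ[k] E) x = x) → χ g = 1) ∧
      ∀ v ∉ Bad, ∀ O : ValuationSubring E, OverV v O → ∀ τ : L.fixingSubgroup,
        Inert O (τ : E ≃ₐ[k] E).toRingEquiv → χ τ = 1}.Finite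

/-- BLOCK LFT: the Frobenius elements of `Ctx` lift to those of the algebraic closure. -/
def StmtLFT : Prop :=
  ∀ (k L E : Type) [Field k] [NumberField k] [Field L] [NumberField L] [Algebra k L] [IsGalois k L]
    [Field E] [IsAlgClosed E] [Algebra k E] [Algebra.IsAlgebraic k E] (ι : L →ₐ[k] E),
    ∃ M' : ℕ, M' ≠ 0 ∧ ∀ (f : Polynomial k) (X : Ctx k L f), M' ∣ X.M → ∀ v : Pr k, Gd X.M v →
      ∃ (O : ValuationSubring E) (F : E ≃ₐ[k] E) (p n : ℕ), DecPt v O F p n ∧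
        (∀ z : L, ι z ∈ O ↔ (X.P v).valuation L z ≤ 1) ∧ ∀ z : L, F (ι z) = ι (X.F v z)

/-! ## The geometric blocks -/

/-- BLOCK K4M: `LN.StmtK4` at an arbitrary level. -/
def StmtK4M : Prop :=
  ∀ (k K0 E U : Type) [Field k] [NumberField k] [Field K0] [Field E] [Field U] [Algebra k K0]
    [Algebra k E] [Algebra E U] [Algebra K0 U] [Algebra k U] [IsScalarTower k E U]
    [IsScalarTower k K0 U] (n : ℕ) (h : K0) (r : U), 2 ≤ n → Geo k K0 E U n h r →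
    ∀ ℓ : ℕ, ℓ.Prime →
    ∀ N0 : IntermediateField E U, MM E K0 r ≤ N0 → IsFunctionField E N0 →
    ∃ Z : Finset U, ∀ N : IntermediateField E U, N0 ≤ N → (∀ z ∈ Z, z ∈ N) →
      IsFunctionField E N → ∀ b : N ≃ₐ[E] N,
      (∀ x : N, (x : U) ∈ L0 E K0 (U := U) → b x = x) → b ^ ℓ = 1 →
      (∀ x : N, (x : U) = r → b x ≠ x) →
      ∀ Q Q' : Place E N, (∀ x ∈ Q.ring, b x ∈ Q.ring) → (∀ x ∈ Q'.ring, b x ∈ Q'.ring) →
      SamePlace N0 N Q Q'

/-- BLOCK LM (the local theorem at an arbitrary level; from `L.StmtK2`, `LN.StmtK3`, `StmtK4M`,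
`L.StmtAR`).  The last clause is the grading: `gcd(n, ord_b h)` divides `v(c)`. -/
def StmtLM : Prop :=
  ∀ (k K0 E U : Type) [Field k] [NumberField k] [Field K0] [Field E] [Field U] [Algebra k K0]
    [Algebra k E] [Algebra E U] [Algebra K0 U] [Algebra k U] [IsScalarTower k E U]
    [IsScalarTower k K0 U] (n : ℕ) (h : K0) (r : U), 2 ≤ n → Geo k K0 E U n h r →
    ∀ Z : Finset U,
    ∃ N : IntermediateField E U, MM E K0 r ≤ N ∧ IsFunctionField E N ∧ (∀ z ∈ Z, z ∈ N) ∧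
      (∀ T : U ≃+* U, (∀ x : K0, T (algebraMap K0 U x) = algebraMap K0 U x) →
        (∀ e : E, ∃ e' : E, T (algebraMap E U e) = algebraMap E U e') → ∀ z ∈ N, T z ∈ N) ∧
      ∃ Bad : Set (Pr k), Bad.Finite ∧ ∀ v ∉ Bad, ∀ c : k, c ≠ 0 →
        ∀ Φ : (E ≃ₐ[k] E) →* (U ≃+* U), Act (K0 := K0) n r c Φ →
        ∀ (O : ValuationSubring E) (F : E ≃ₐ[k] E) (p f : ℕ), DecPt v O F p f →
        (∀ τ : E ≃ₐ[k] E, Inert O τ.toRingEquiv → (∀ d : E, d ^ n = algebraMap k E c → τ d = d) →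
          ∀ z ∈ Z, Φ τ z = z) ∧
        (IsRam n v c → ∃ (b : Place E (L0 E K0 (U := U))) (Q : Place E N),
          OverPl b Q ∧ Moves (Φ F) N Q Q ∧
          (∀ τ : E ≃ₐ[k] E, Inert O τ.toRingEquiv → Moves (Φ τ) N Q Q) ∧
          ∀ d : ℕ, d ∣ n → (d : ℤ) ∣ ord b.ring (inL0 h) → ¬ IsRam d v c)

/-- BLOCK Z. -/
def StmtZ : Prop :=
  ∀ (k K0 E U : Type) [Field k] [NumberField k] [Field K0] [Field E] [Field U] [Algebra k K0]
    [Algebra k E] [Algebra E U] [Algebra K0 U] [Algebra k U] [IsScalarTower k E U]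
    [IsScalarTower k K0 U] (n ℓ : ℕ) (h : K0) (r : U), 0 < n → ℓ.Prime → ℓ ∣ n →
    HasMu k ℓ → Geo k K0 E U n h r →
    ∀ b b' : Place E (L0 E K0 (U := U)), BPl ℓ h b → BPl ℓ h b' → b ≠ b' → ∃ z : U, IsZ ℓ b b' z

/-- BLOCK PI: the group of classes of order a power of `ℓ`. -/
def StmtPI : Prop :=
  ∀ (k K0 E U : Type) [Field k] [NumberField k] [Field K0] [Field E] [Field U] [Algebra k K0]
    [Algebra k E] [Algebra E U] [Algebra K0 U] [Algebra k U] [IsScalarTower k E U]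
    [IsScalarTower k K0 U] (n ℓ : ℕ) (h : K0) (r : U), 0 < n → ℓ.Prime → ℓ ∣ n →
    HasMu k ℓ → Geo k K0 E U n h r →
    ∀ (c : k) (Φ : (E ≃ₐ[k] E) →* (U ≃+* U)), c ≠ 0 → Act (K0 := K0) n r c Φ →
    ∃ (P : Type) (_ : AddCommGroup P) (_ : DistribMulAction (E ≃ₐ[k] E) P) (κ : U → P),
      (∀ p : P, ∃ (w : U) (j : ℕ), UR E K0 (ℓ ^ j) w ∧ κ w = p) ∧
      (∀ (w w' : U) (j j' : ℕ), UR E K0 (ℓ ^ j) w → UR E K0 (ℓ ^ j') w' →
        κ (w * w') = κ w + κ w') ∧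
      (∀ (w : U) (j : ℕ), UR E K0 (ℓ ^ j) w → (κ w = 0 ↔ w ∈ L0 E K0 (U := U))) ∧
      (∀ (g : E ≃ₐ[k] E) (w : U) (j : ℕ), UR E K0 (ℓ ^ j) w → κ (Φ g w) = g • κ w) ∧
      (∀ p : P, ∃ m : ℕ, ℓ ^ m • p = 0) ∧ (∀ p : P, ∃ q : P, ℓ • q = p) ∧
      {p : P | ℓ • p = 0}.Finite ∧
      ∀ p : P, ∃ L : IntermediateField k E, FiniteDimensional k L ∧
        ∀ g : E ≃ₐ[k] E, (∀ x ∈ L, g x = x) → g • p = p

/-- BLOCK W4. -/
def StmtW4 : Prop :=
  ∀ (k K0 E U : Type) [Field k] [NumberField k] [Field K0] [Field E] [Field U] [Algebra k K0]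
    [Algebra k E] [Algebra E U] [Algebra K0 U] [Algebra k U] [IsScalarTower k E U]
    [IsScalarTower k K0 U] (n ℓ : ℕ) (h : K0) (r : U), 0 < n → ℓ.Prime → ℓ ∣ n →
    HasMu k ℓ → Geo k K0 E U n h r →
    ∀ (c : k) (Φ : (E ≃ₐ[k] E) →* (U ≃+* U)), c ≠ 0 → Act (K0 := K0) n r c Φ →
    ∀ L : IntermediateField k E, FiniteDimensional k L → ∀ x : E ≃ₐ[k] E,
    ∃ g : E ≃ₐ[k] E, (∀ z ∈ L, g z = x z) ∧ ∃ T : Finset U, ∀ (w : U) (j : ℕ),
      UR E K0 (ℓ ^ j) w → Φ g w * w⁻¹ ∈ L0 E K0 (U := U) →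
        ∃ t ∈ T, t ≠ 0 ∧ w * t⁻¹ ∈ L0 E K0 (U := U)

/-- BLOCK QW (Kummer theory, `M.StmtFT` and `M.StmtW1`). -/
def StmtQW : Prop :=
  ∀ (k K0 E U : Type) [Field k] [NumberField k] [Field K0] [Field E] [Field U] [Algebra k K0]
    [Algebra k E] [Algebra E U] [Algebra K0 U] [Algebra k U] [IsScalarTower k E U]
    [IsScalarTower k K0 U] (n ℓ : ℕ) (h : K0) (r : U), 0 < n → ℓ.Prime → ℓ ∣ n →
    HasMu k ℓ → Geo k K0 E U n h r →
    ∃ K : ℕ, 0 < K ∧ ∀ (c : k) (Φ : (E ≃ₐ[k] E) →* (U ≃+* U)), c ≠ 0 →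
    Act (K0 := K0) n r c Φ → ∀ (j : ℕ) (σ : E ≃ₐ[k] E), 0 < j → QM E K0 ℓ (K * j) (Φ σ) →
    ∃ w : U, UR E K0 (ℓ ^ j) w ∧ w ^ ℓ ^ (j - 1) ∉ L0 E K0 (U := U) ∧
      Φ σ w * w⁻¹ ∈ L0 E K0 (U := U)

/-- BLOCK QMD (the density; from `StmtPI`, `StmtW4`, `StmtQW`, `StmtW2`). -/
def StmtQMD : Prop :=
  ∀ (k K0 E U : Type) [Field k] [NumberField k] [Field K0] [Field E] [Field U] [Algebra k K0]
    [Algebra k E] [Algebra E U] [Algebra K0 U] [Algebra k U] [IsScalarTower k E U]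
    [IsScalarTower k K0 U] (n ℓ : ℕ) (h : K0) (r : U), 0 < n → ℓ.Prime → ℓ ∣ n →
    HasMu k ℓ → Geo k K0 E U n h r →
    ∀ ε : ℝ, 0 < ε →
    ∃ (m : ℕ) (L : IntermediateField k E), 1 ≤ m ∧ FiniteDimensional k L ∧ IsGalois k L ∧
      ∀ (c : k) (Φ : (E ≃ₐ[k] E) →* (U ≃+* U)), c ≠ 0 → Act (K0 := K0) n r c Φ →
      (Nat.card {τ : L ≃ₐ[k] L // ∃ σ : E ≃ₐ[k] E, (∀ x : L, σ x = τ x) ∧
        QM E K0 ℓ m (Φ σ)} : ℝ) ≤ ε * Nat.card (L ≃ₐ[k] L)

/-- BLOCK MU: the number of places of `NN ℓ` over a place of `L0`, and the uniqueness of the one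
below a place of `NN (ℓ ^ m)` fixed by `φ`, if `QM` does not hold. -/
def StmtMU : Prop :=
  ∀ (k K0 E U : Type) [Field k] [NumberField k] [Field K0] [Field E] [Field U] [Algebra k K0]
    [Algebra k E] [Algebra E U] [Algebra K0 U] [Algebra k U] [IsScalarTower k E U]
    [IsScalarTower k K0 U] (n ℓ : ℕ) (h : K0) (r : U), 0 < n → ℓ.Prime → ℓ ∣ n →
    HasMu k ℓ → Geo k K0 E U n h r →
    (∃ K : ℕ, ∀ b : Place E (L0 E K0 (U := U)),
      {P : Place E (NN E K0 ℓ (U := U)) | OverPl b P}.Finite ∧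
      Nat.card {P : Place E (NN E K0 ℓ (U := U)) | OverPl b P} ≤ K) ∧
    ∀ (c : k) (Φ : (E ≃ₐ[k] E) →* (U ≃+* U)), c ≠ 0 → Act (K0 := K0) n r c Φ →
    ∀ (m : ℕ) (σ : E ≃ₐ[k] E), 1 ≤ m → ¬ QM E K0 ℓ m (Φ σ) →
      ∀ (b : Place E (L0 E K0 (U := U)))
      (P P' : Place E (NN E K0 ℓ (U := U))) (Q Q' : Place E (NN E K0 (ℓ ^ m) (U := U))),
      OverPl b P → OverPl b P' → OverPl P Q → OverPl P' Q' →
      Moves (Φ σ) (NN E K0 (ℓ ^ m)) Q Q → Moves (Φ σ) (NN E K0 (ℓ ^ m)) Q' Q' → P = P'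

/-- BLOCK FIN (from `StmtLM`, `M.StmtFT`, `StmtHF`, `LN.StmtFR`): on the level `ℓ ^ m` there are
finitely many actions. -/
def StmtFIN : Prop :=
  ∀ (k K0 E U : Type) [Field k] [NumberField k] [Field K0] [Field E] [Field U] [Algebra k K0]
    [Algebra k E] [Algebra E U] [Algebra K0 U] [Algebra k U] [IsScalarTower k E U]
    [IsScalarTower k K0 U] (n ℓ : ℕ) (h : K0) (r : U), 0 < n → ℓ.Prime → ℓ ∣ n →
    HasMu k ℓ → Geo k K0 E U n h r →
    ∀ m : ℕ,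
    ∃ (I : Type) (_ : Finite I) (c₁ : I → k) (Φ₁ : I → ((E ≃ₐ[k] E) →* (U ≃+* U))),
      (∀ i, c₁ i ≠ 0 ∧ Act (K0 := K0) n r (c₁ i) (Φ₁ i)) ∧
      ∀ (c : k) (Φ : (E ≃ₐ[k] E) →* (U ≃+* U)), c ≠ 0 → Act (K0 := K0) n r c Φ →
        ∃ i, ∀ (g : E ≃ₐ[k] E) (w : U), UR E K0 (ℓ ^ m) w → Φ g w = Φ₁ i g w

/-- The arithmetic data of an action `Φ` of a twist by `c`, which agrees with `Φ₁` on the level
`ℓ ^ m`: `ℓ`-th roots `δ b b'` of numbers, for all pairs of branch points. -/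
structure IntDat {k K0 E U : Type} [Field k] [NumberField k] [Field K0] [Field E] [Field U]
    [Algebra k K0] [Algebra k E] [Algebra E U] [Algebra K0 U] [Algebra k U] (n ℓ : ℕ) (h : K0)
    (m : ℕ) (Φ₁ : (E ≃ₐ[k] E) →* (U ≃+* U))
    (zz : Place E (L0 E K0 (U := U)) → Place E (L0 E K0 (U := U)) → U) (Bad : Set (Pr k)) (c : k)
    (δ : Place E (L0 E K0 (U := U)) → Place E (L0 E K0 (U := U)) → E) : Prop where
  ne : ∀ b b', BPl ℓ h b → BPl ℓ h b' → b ≠ b' → δ b b' ≠ 0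
  eqv : ∀ (g : E ≃ₐ[k] E) b b' a a', BPl ℓ h b → BPl ℓ h b' → b ≠ b' → Moves (Φ₁ g) _ b a →
    Moves (Φ₁ g) _ b' a' → g (δ b b' ^ ℓ) = δ a a' ^ ℓ
  even : ∀ v ∉ Bad, ∀ (O : ValuationSubring E) (F : E ≃ₐ[k] E) (p f : ℕ), DecPt v O F p f →
    ∀ τ : E ≃ₐ[k] E, Inert O τ.toRingEquiv → (∀ d : E, d ^ ℓ = algebraMap k E c → τ d = d) →
    ∀ b b', BPl ℓ h b → BPl ℓ h b' → b ≠ b' → τ (δ b b') = δ b b'
  odd : ∀ v ∉ Bad, IsRam ℓ v c → ∀ (O : ValuationSubring E) (F : E ≃ₐ[k] E) (p f : ℕ),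
    DecPt v O F p f → ∃ (b₀ : Place E (L0 E K0 (U := U))) (P : Place E (NN E K0 ℓ (U := U)))
      (Q : Place E (NN E K0 (ℓ ^ m) (U := U))), BPl ℓ h b₀ ∧ OverPl b₀ P ∧ OverPl P Q ∧
      Moves (Φ₁ F) _ b₀ b₀ ∧ Moves (Φ₁ F) _ Q Q ∧
      (∀ d : ℕ, d ∣ n → (d : ℤ) ∣ ord b₀.ring (inL0 h) → ¬ IsRam d v c) ∧
      (∀ τ : E ≃ₐ[k] E, Inert O τ.toRingEquiv → ∀ d : E, d ^ ℓ = algebraMap k E c → τ d ≠ d →
        ∃ ω : E, ω ^ ℓ = 1 ∧ ω ^ ord b₀.ring (inL0 h) * τ d = d ∧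
          ∀ b b', BPl ℓ h b → BPl ℓ h b' → b ≠ b' →
            (b = b₀ → τ (δ b b') = ω * δ b b') ∧ (b' = b₀ → ω * τ (δ b b') = δ b b') ∧
            (b ≠ b₀ → b' ≠ b₀ → τ (δ b b') = δ b b')) ∧
      ∀ b b', BPl ℓ h b → BPl ℓ h b' → b ≠ b' → b ≠ b₀ → b' ≠ b₀ → ∀ N : ℕ,
        Moves (Φ₁ F ^ N) _ b b → Moves (Φ₁ F ^ N) _ b' b' →
        (F ^ N) (δ b b') =
          algebraMap k E ((sgn (k := k) ℓ (Φ₁ F ^ N) P (zz b b') : kˣ) : k) * δ b b'

/-- BLOCK INT (from `StmtLM`, `M.StmtFT`, `StmtCOC`). -/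
def StmtINT : Prop :=
  ∀ (k K0 E U : Type) [Field k] [NumberField k] [Field K0] [Field E] [Field U] [Algebra k K0]
    [Algebra k E] [Algebra E U] [Algebra K0 U] [Algebra k U] [IsScalarTower k E U]
    [IsScalarTower k K0 U] (n ℓ : ℕ) (h : K0) (r : U), 0 < n → ℓ.Prime → ℓ ∣ n →
    HasMu k ℓ → Geo k K0 E U n h r →
    ∀ m : ℕ, 1 ≤ m →
    ∀ (c₁ : k) (Φ₁ : (E ≃ₐ[k] E) →* (U ≃+* U)), c₁ ≠ 0 → Act (K0 := K0) n r c₁ Φ₁ →
    ∀ zz : Place E (L0 E K0 (U := U)) → Place E (L0 E K0 (U := U)) → U,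
    (∀ b b', BPl ℓ h b → BPl ℓ h b' → b ≠ b' → IsZ ℓ b b' (zz b b')) →
    ∃ Bad : Set (Pr k), Bad.Finite ∧ ∀ (c : k) (Φ : (E ≃ₐ[k] E) →* (U ≃+* U)), c ≠ 0 →
      Act (K0 := K0) n r c Φ →
      (∀ (g : E ≃ₐ[k] E) (w : U), UR E K0 (ℓ ^ m) w → Φ g w = Φ₁ g w) →
      ∃ δ : Place E (L0 E K0 (U := U)) → Place E (L0 E K0 (U := U)) → E,
        IntDat n ℓ h m Φ₁ zz Bad c δ

/-- `h` has order prime to `n` at `b` (`b` is totally ramified in `y ^ n = h`) -/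
def Tot {U E K0 : Type} [Field U] [Field E] [Field K0] [Algebra E U] [Algebra K0 U] (n : ℕ) (h : K0)
    (b : Place E (L0 E K0 (U := U))) : Prop :=
  ∀ d : ℕ, d ∣ n → 1 < d → ¬ (d : ℤ) ∣ ord b.ring (inL0 h)

/-- there is a rational totally ramified point of `Y` -/
def RatTot (k : Type) {K0 : Type} [Field k] [Field K0] [Algebra k K0] (n : ℕ) (h : K0) : Prop :=
  ∃ P : ValuationSubring K0, (∀ a : k, algebraMap k K0 a ∈ P) ∧
    (∀ x ∈ P, ∃ a : k, P.valuation (x - algebraMap k K0 a) < 1) ∧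
    ∀ d : ℕ, d ∣ n → 1 < d → ∀ z : K0, P.valuation h ≠ P.valuation z ^ d

/-- BLOCK NR: the branch points are finitely many, the places are permuted, in the same way by all
actions, the order of `h` is invariant, and a totally ramified place fixed by all `Φ σ` is rational. -/
def StmtNR : Prop :=
  ∀ (k K0 E U : Type) [Field k] [NumberField k] [Field K0] [Field E] [Field U] [Algebra k K0]
    [Algebra k E] [Algebra E U] [Algebra K0 U] [Algebra k U] [IsScalarTower k E U]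
    [IsScalarTower k K0 U] (n ℓ : ℕ) (h : K0) (r : U), 0 < n → ℓ.Prime → ℓ ∣ n →
    HasMu k ℓ → Geo k K0 E U n h r →
    {b : Place E (L0 E K0 (U := U)) | BPl ℓ h b}.Finite ∧
    ∀ (c : k) (Φ : (E ≃ₐ[k] E) →* (U ≃+* U)), c ≠ 0 → Act (K0 := K0) n r c Φ →
      (∀ (σ : E ≃ₐ[k] E) (b : Place E (L0 E K0 (U := U))),
        ∃! b' : Place E (L0 E K0 (U := U)), Moves (Φ σ) _ b b') ∧
      (∀ (σ : E ≃ₐ[k] E) (b b' : Place E (L0 E K0 (U := U))), Moves (Φ σ) _ b b' →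
        ord b.ring (inL0 h) = ord b'.ring (inL0 h)) ∧
      (∀ (c' : k) (Φ' : (E ≃ₐ[k] E) →* (U ≃+* U)), c' ≠ 0 → Act (K0 := K0) n r c' Φ' →
        ∀ (σ : E ≃ₐ[k] E) (b b' : Place E (L0 E K0 (U := U))),
          Moves (Φ σ) _ b b' ↔ Moves (Φ' σ) _ b b') ∧
      (∀ b : Place E (L0 E K0 (U := U)), ∃ L : IntermediateField k E, FiniteDimensional k L ∧
        ∀ σ : E ≃ₐ[k] E, (∀ x ∈ L, σ x = x) → Moves (Φ σ) _ b b) ∧
      (¬ RatTot k n h → ∀ b : Place E (L0 E K0 (U := U)), Tot n h b →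
        ∃ σ : E ≃ₐ[k] E, ¬ Moves (Φ σ) _ b b)

/-! ## Geometric branch points -/

/-- A geometric point of `Y` at which `h` is not a unit: a valuation ring `P` of `K0` containing `k`,
with an embedding of its residue field in `E`. -/
@[ext] structure GPt (k : Type) {K0 : Type} (E : Type) [Field k] [Field K0] [Field E] [Algebra k K0]
    [Algebra k E] (h : K0) where
  P : ValuationSubring K0
  φ : P →+* E
  const : ∀ a : k, algebraMap k K0 a ∈ P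
  nt : P.valuation h ≠ 1
  emb : ∀ (a : k) (x : P), (x : K0) = algebraMap k K0 a → φ x = algebraMap k E a

/-- the action of the Galois group -/
def GPt.map {k K0 E : Type} [Field k] [Field K0] [Field E] [Algebra k K0] [Algebra k E] {h : K0}
    (b : GPt k E h) (g : E ≃ₐ[k] E) : GPt k E h where
  P := b.P
  φ := (g : E →+* E).comp b.φ
  const := b.const
  nt := b.nt
  emb := fun a x hx => by
    change g (b.φ x) = _
    rw [b.emb a x hx, g.commutes]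

/-- BLOCK BIJ: the places of `L0` over `E` at which `h` has nonzero order are the geometric points at
which `h` is not a unit; the divisors of the order. -/
def StmtBIJ : Prop :=
  ∀ (k K0 E U : Type) [Field k] [NumberField k] [Field K0] [Field E] [Field U] [Algebra k K0]
    [Algebra k E] [Algebra E U] [Algebra K0 U] [Algebra k U] [IsScalarTower k E U]
    [IsScalarTower k K0 U] (n : ℕ) (h : K0) (r : U), 2 ≤ n → Geo k K0 E U n h r →
    ∀ (c : k) (Φ : (E ≃ₐ[k] E) →* (U ≃+* U)), c ≠ 0 → Act (K0 := K0) n r c Φ →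
    ∃ β : {b : Place E (L0 E K0 (U := U)) // ord b.ring (inL0 h) ≠ 0} ≃ GPt k E h,
      (∀ (g : E ≃ₐ[k] E) (b b' : {b : Place E (L0 E K0 (U := U)) // ord b.ring (inL0 h) ≠ 0}),
        Moves (Φ g) _ b.1 b'.1 ↔ (β b).map g = β b') ∧
      ∀ (b : {b : Place E (L0 E K0 (U := U)) // ord b.ring (inL0 h) ≠ 0}) (d : ℕ), 0 < d →
        ((d : ℤ) ∣ ord b.1.ring (inL0 h) ↔
          ∃ z : K0, (β b).P.valuation h = (β b).P.valuation z ^ d)

/-- A geometric branch point of `y ^ n = h`: a valuation ring `P` of `K0` containing `k` at which the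
valuation of `h` is not divisible by `n`, with an embedding of its residue field in `E`. -/
@[ext] structure GBr (k : Type) {K0 : Type} (E : Type) [Field k] [Field K0] [Field E] [Algebra k K0]
    [Algebra k E] (n : ℕ) (h : K0) where
  P : ValuationSubring K0
  φ : P →+* E
  const : ∀ a : k, algebraMap k K0 a ∈ P
  ram : ∀ z : K0, P.valuation h ≠ P.valuation z ^ n
  emb : ∀ (a : k) (x : P), (x : K0) = algebraMap k K0 a → φ x = algebraMap k E a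

/-- the action of the Galois group -/
def GBr.map {k K0 E : Type} [Field k] [Field K0] [Field E] [Algebra k K0] [Algebra k E] {n : ℕ}
    {h : K0} (b : GBr k E n h) (g : E ≃ₐ[k] E) : GBr k E n h where
  P := b.P
  φ := (g : E →+* E).comp b.φ
  const := b.const
  ram := b.ram
  emb := fun a x hx => by
    change g (b.φ x) = _
    rw [b.emb a x hx, g.commutes]

/-! ## The final theorems -/

/-- a Frobenius element at `v` fixes a branch point -/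
def FrobFix (k : Type) {K0 : Type} [Field k] [NumberField k] [Field K0] [Algebra k K0] (n : ℕ)
    (h : K0) (v : Pr k) : Prop :=
  ∃ (O : ValuationSubring (AlgebraicClosure k)) (F : AlgebraicClosure k ≃ₐ[k] AlgebraicClosure k)
    (p f : ℕ), DecPt v O F p f ∧ ∃ b : GBr k (AlgebraicClosure k) n h, b.map F = b

/-- Hypothesis `HL`: there are branch points, and for every Galois stable set `J` of `j` geometric
branch points with `ℓ ^ j ≤ j * ℓ ^ 2` (`1 ≤ j ≤ 4` for `ℓ = 2`, `1 ≤ j ≤ 3` for `ℓ = 3`, `j = 1` or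
`j = 2` for `ℓ ≥ 5`) some `σ` fixes a branch point, but none in `J`. -/
def HL (k : Type) {K0 : Type} [Field k] [Field K0] [Algebra k K0] (ℓ : ℕ) (h : K0) : Prop :=
  Nonempty (GBr k (AlgebraicClosure k) ℓ h) ∧
  ∀ J : Finset (GBr k (AlgebraicClosure k) ℓ h), (∀ g, ∀ b ∈ J, b.map g ∈ J) →
    ℓ ^ J.card ≤ J.card * ℓ ^ 2 →
    ∃ σ : AlgebraicClosure k ≃ₐ[k] AlgebraicClosure k,
      (∃ b : GBr k (AlgebraicClosure k) ℓ h, b.map σ = b) ∧ ∀ b ∈ J, b.map σ ≠ b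

/-- the classes with conductor `≤ X` of the elements with property `P` -/
def clsU {k : Type} [Field k] [NumberField k] (n : ℕ) (P : kˣ → Prop) (X : ℕ) :
    Set (LN.Cls k n) :=
  {C | ∃ c : kˣ, (c : LN.Cls k n) = C ∧ LN.cond n (c : k) ≤ X ∧ P c}

/-- The final theorem, relative form (degree `ℓ`, the locally soluble twists). -/
def StmtFinR : Prop :=
  ∀ (k K0 : Type) [Field k] [NumberField k] [Field K0] [Algebra k K0] (ℓ : ℕ) (h : K0),
    ℓ.Prime → HasMu k ℓ → GoodCurve k ℓ h → HL k ℓ h →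
    ∃ (Sg₀ : Set (Pr k)) (η : ℝ), Sg₀.Finite ∧ 0 < η ∧
      (∀ c : k, c ≠ 0 → HasSec ℓ h c → ∀ v ∉ Sg₀, IsRam ℓ v c → FrobFix k ℓ h v) ∧
      ∀ Sg : Set (Pr k), Sg.Finite → Sg₀ ⊆ Sg → ∀ W : Subgroup kˣ, W.FiniteIndex → ∀ c₀ : kˣ,
        (∀ v ∉ Sg, IsRam ℓ v (c₀ : k) → FrobFix k ℓ h v) →
        ∃ C : ℝ, 0 < C ∧ ∀ X : ℕ, 3 ≤ X →
          (Nat.card (clsU ℓ (fun c : kˣ => c₀⁻¹ * c ∈ W ∧ HasSec ℓ h (c : k)) X) : ℝ) ≤
          C * Nat.card (clsU ℓ (fun c : kˣ => c₀⁻¹ * c ∈ W ∧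
            ∀ v ∉ Sg, IsRam ℓ v (c : k) → FrobFix k ℓ h v) X) / Real.log X ^ η

/-- The final theorem, absolute form: no rational point of `Y` is totally ramified. -/
def StmtFinA : Prop :=
  ∀ (k K0 : Type) [Field k] [NumberField k] [Field K0] [Algebra k K0] (n ℓ : ℕ) (h : K0),
    0 < n → ℓ.Prime → ℓ ∣ n → HasMu k ℓ → GoodCurve k n h → ¬ RatTot k n h →
    ∃ η C : ℝ, 0 < η ∧ 0 < C ∧ ∀ X : ℕ, 3 ≤ X →
      (Nat.card (LN.clsP n (fun c : k => HasSec n h c) X) : ℝ) ≤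
        C * Nat.card (LN.clsP (k := k) n (fun _ => True) X) / Real.log X ^ η

end

end Pool.Agent.ML
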