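import Pool.Agent.Helper45.ML.INTd

/-!
# Project ML, block INT
-/

set_option autoImplicit false

namespace Pool.Agent.ML

open VC IntermediateField NumberField IsDedekindDomain Pool.Agent.SC
open Pool.Agent.L (Inert L0 MM SamePlace OverV)
open Pool.Agent.LN (Geo Act HasSec GoodCurve IsRam DecPt)
open Pool.Agent.M
open Pool.Agent.HG (Pr nm Ctx Gd)

/-- `Φ g` is semilinear -/
theorem semi_act {k K0 E U : Type} [Field k] [Field K0] [Field E] [Field U] [Algebra k K0]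
    [Algebra k E] [Algebra E U] [Algebra K0 U] [Algebra k U] {n : ℕ} {r : U} {c : k}
    {Φ : (E ≃ₐ[k] E) →* (U ≃+* U)} (hΦ : Act (K0 := K0) n r c Φ) (g : E ≃ₐ[k] E) :
    Semi K0 g.toRingEquiv (Φ g) :=
  ⟨fun e => hΦ.const g e, fun x => hΦ.fixK g x⟩

/-- **BLOCK INT.** -/
theorem int (hLM : StmtLM) (hFT : M.StmtFT) (hCOC : StmtCOC) (hNR : StmtNR) (hAR : L.StmtAR) :
    StmtINT := by
  classical
  intro k K0 E U _ _ _ _ _ _ _ _ _ _ _ _ n ℓ h r hn hℓp hℓn hμ geo m hm c₁ Φ₁ hc₁ hΦ₁ zz hzz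
  have hcl : IsAlgClosed E := geo.clE
  have halg : Algebra.IsAlgebraic k E := geo.algE
  have hch : CharZero E := charZero_of_injective_algebraMap (algebraMap k E).injective
  have hchU : CharZero U := charZero_of_injective_algebraMap (algebraMap E U).injective
  have hac : IsAlgClosure k E := ⟨hcl, halg⟩
  have hgal : IsGalois k E := IsAlgClosure.isGalois k E
  have hF := geo.ff
  have hnor : Normal K0 U := geo.normal
  have hint : ∀ x : U, IsIntegral K0 x := fun x => hnor.isIntegral x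
  have hℓ : 0 < ℓ := hℓp.pos
  have hn2 : 2 ≤ n := le_trans hℓp.two_le (Nat.le_of_dvd hn hℓn)
  obtain ⟨q, hq⟩ : ∃ q : ℕ, n = q * ℓ := by
    obtain ⟨q, hq⟩ := hℓn
    exact ⟨q, by rw [hq, mul_comm]⟩
  obtain ⟨hBfin, hNRc⟩ := hNR k K0 E U n ℓ h r hn hℓp hℓn hμ geo
  obtain ⟨-, hordM, -, hst, -⟩ := hNRc c₁ Φ₁ hc₁ hΦ₁
  have hBPl : ∀ (σ : E ≃ₐ[k] E) (b b' : Place E (L0 E K0 (U := U))), Moves (Φ₁ σ) _ b b' →
      (BPl ℓ h b ↔ BPl ℓ h b') := by
    intro σ b b' hm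
    unfold BPl
    rw [hordM σ b b' hm]
  -- `h` and its root
  have hr0 : r ≠ 0 := by
    rintro rfl
    refine geo.rnot 1 one_pos (by omega) ?_
    rw [pow_one]
    exact zero_mem _
  have hh0 : (inL0 h : L0 E K0 (U := U)) ≠ 0 := by
    intro h0
    have h1 : algebraMap K0 U h = 0 := congrArg (fun t : L0 E K0 (U := U) => (t : U)) h0
    rw [← geo.rpow] at h1
    exact pow_ne_zero n hr0 h1
  obtain ⟨r', hr'⟩ : ∃ r' : U, r' = r ^ q := ⟨_, rfl⟩
  have hr'ℓ : r' ^ ℓ = ((inL0 h : L0 E K0 (U := U)) : U) := by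
    rw [hr', ← pow_mul, ← hq, geo.rpow]
    rfl
  -- the finite sets of branch points
  let BF : Finset (Place E (L0 E K0 (U := U))) := hBfin.toFinset
  have hBF : ∀ b, b ∈ BF ↔ BPl ℓ h b := fun b => hBfin.mem_toFinset
  have hOfin := FF.finite_support_ord hF hh0
  let OF : Finset (Place E (L0 E K0 (U := U))) := hOfin.toFinset
  have hOF : ∀ b, b ∈ OF ↔ ord b.ring (inL0 h : L0 E K0 (U := U)) ≠ 0 := fun b =>
    hOfin.mem_toFinset
  obtain ⟨Z2, hZ2⟩ := NN_fin hFT hF (n := ℓ ^ m) (by positivity)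
  let Z1 : Finset U := (BF ×ˢ BF).image fun π => zz π.1 π.2
  have hZ1 : ∀ b b', BPl ℓ h b → BPl ℓ h b' → zz b b' ∈ Z1 := fun b b' hb hb' =>
    Finset.mem_image.2 ⟨(b, b'), Finset.mem_product.2 ⟨(hBF b).2 hb, (hBF b').2 hb'⟩, rfl⟩
  obtain ⟨N, hMN, -, hZN, hNst, Bad, hBad, hloc⟩ := hLM k K0 E U n h r hn2 geo (Z1 ∪ Z2)
  have hLN : L0 E K0 (U := U) ≤ N :=
    (adjoin.mono E _ _ Set.subset_union_left).trans hMN
  have hrN : r ∈ N := hMN (subset_adjoin _ _ (Or.inr rfl))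
  have hr'N : r' ∈ N := by rw [hr']; exact pow_mem hrN _
  have hNNN : NN E K0 (ℓ ^ m) ≤ N := hZ2 N hLN fun z hz => hZN z (Finset.mem_union_right _ hz)
  have hNN2 : NN E K0 ℓ ≤ NN E K0 (ℓ ^ m) (U := U) := by
    refine adjoin_le_iff.2 ?_
    rintro w (⟨x, rfl⟩ | hw)
    · exact subset_adjoin _ _ (Or.inl ⟨x, rfl⟩)
    · exact (ur_pow hF hm hℓ hw).mem
  have hKL : ∀ x : K0, algebraMap K0 U x ∈ L0 E K0 (U := U) := fun x =>
    subset_adjoin _ _ ⟨x, rfl⟩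
  -- constants for the inertia
  have hCn : ∀ π : Place E (L0 E K0 (U := U)) × Place E (L0 E K0 (U := U)) ×
      Place E (L0 E K0 (U := U)), ∃ C : Finset E, BPl ℓ h π.2.1 → BPl ℓ h π.2.2 →
      π.2.1 ≠ π.2.2 → ∀ N : IntermediateField E U,
      L0 E K0 (U := U) ≤ N → r' ∈ N → zz π.2.1 π.2.2 ∈ N → ∀ Q : Place E N, OverPl π.1 Q →
      ∀ (σ : E ≃+* E) (T : U ≃+* U), Semi K0 σ T → Moves T N Q Q → (∀ e ∈ C, σ e = e) →
      (∀ a : k, σ (algebraMap k E a) = algebraMap k E a) →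
      ((π.1 ≠ π.2.1 → π.1 ≠ π.2.2 → ∀ s : rootsOfUnity ℓ k,
        T (zz π.2.1 π.2.2) = algebraMap k U (mv s) * zz π.2.1 π.2.2 → s = 1) ∧
      (∀ s θ : rootsOfUnity ℓ k, T (zz π.2.1 π.2.2) = algebraMap k U (mv s) * zz π.2.1 π.2.2 →
        T r' = algebraMap k U (mv θ) * r' → ∃ e : ℤ, s ^ ord π.1.ring (inL0 h) = θ ^ e ∧
          (π.1 = π.2.1 → (ℓ : ℤ) ∣ e - 1) ∧ (π.1 = π.2.2 → (ℓ : ℤ) ∣ e + 1))) := by
    rintro ⟨b₀, b, b'⟩
    by_cases hb : BPl ℓ h b ∧ BPl ℓ h b' ∧ b ≠ b'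
    · obtain ⟨hb1, hb2, hne⟩ := hb
      obtain ⟨hz0, f, hf, hord1, hord2, hord⟩ := hzz b b' hb1 hb2 hne
      have hf0 : f ≠ 0 := by
        rintro rfl
        exact pow_ne_zero ℓ hz0 hf.symm
      obtain ⟨C, hC⟩ := inert_rel hμ hℓ hF b₀ hf0 hh0
      have hC' : ∀ N : IntermediateField E U,
          L0 E K0 (U := U) ≤ N → r' ∈ N → zz b b' ∈ N → ∀ Q : Place E N, OverPl b₀ Q →
          ∀ (σ : E ≃+* E) (T : U ≃+* U), Semi K0 σ T → Moves T N Q Q → (∀ e ∈ C, σ e = e) →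
          (∀ a : k, σ (algebraMap k E a) = algebraMap k E a) →
          (∀ s θ : rootsOfUnity ℓ k, T (zz b b') = algebraMap k U (mv s) * zz b b' →
            T r' = algebraMap k U (mv θ) * r' → ∃ e : ℤ, s ^ ord b₀.ring (inL0 h) = θ ^ e ∧
              (b₀ = b → (ℓ : ℤ) ∣ e - 1) ∧ (b₀ = b' → (ℓ : ℤ) ∣ e + 1)) := by
        intro N hLN hrN hzN Q hQ σ T hT hm hσ hσk s θ hs hθ
        refine ⟨ord b₀.ring f, hC (zz b b') r' hf.symm hr'ℓ N hLN hzN hrN Q hQ σ T hT hm hσ hσk s θ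
          hs hθ, ?_, ?_⟩
        · rintro rfl
          exact hord1
        · rintro rfl
          exact hord2
      by_cases hcase : b₀ ≠ b ∧ b₀ ≠ b'
      · obtain ⟨C2, hC2⟩ := inert_sign hμ hℓ hF b₀ hf0 (hord b₀ hcase.1 hcase.2)
        refine ⟨C ∪ C2, fun _ _ _ N hLN hrN hzN Q hQ σ T hT hm hσ hσk => ⟨fun _ _ s hs => ?_, ?_⟩⟩
        · exact hC2 (zz b b') hf.symm N hLN hzN Q hQ σ T hT hm
            (fun e he => hσ e (Finset.mem_union_right _ he)) hσk s hs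
        · exact hC' N hLN hrN hzN Q hQ σ T hT hm
            (fun e he => hσ e (Finset.mem_union_left _ he)) hσk
      · refine ⟨C, fun _ _ _ N hLN hrN hzN Q hQ σ T hT hm hσ hσk =>
          ⟨fun h1 h2 => absurd ⟨h1, h2⟩ hcase, hC' N hLN hrN hzN Q hQ σ T hT hm hσ hσk⟩⟩
    · exact ⟨∅, fun h2 h3 h4 => absurd ⟨h2, h3, h4⟩ hb⟩
  choose Cn hCn using hCn
  have hCs : ∀ b : Place E (L0 E K0 (U := U)), ∃ C : Finset E, ∀ g : E ≃ₐ[k] E,
      (∀ e ∈ C, g e = e) → Moves (Φ₁ g) _ b b := by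
    intro b
    obtain ⟨L, hL, hLb⟩ := hst b
    obtain ⟨C, hC⟩ := fix_findim L hL
    exact ⟨C, fun g hg => hLb g (hC g hg)⟩
  choose Cs hCs using hCs
  let D₁ : Finset E := (Polynomial.nthRoots n (algebraMap k E c₁)).toFinset
  have hD₁ : ∀ d : E, d ^ n = algebraMap k E c₁ → d ∈ D₁ := fun d hd => by
    rw [Multiset.mem_toFinset, Polynomial.mem_nthRoots hn]
    exact hd
  let Ctot : Finset E := D₁ ∪ (BF.biUnion Cs ∪ (OF ×ˢ (BF ×ˢ BF)).biUnion Cn)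
  let SS : Finset E := ((Polynomial.nthRoots n (1 : E)).toFinset.filter fun ζ => ζ ≠ 1).image
    fun ζ => ζ - 1
  have hSS : ∀ ζ : E, ζ ^ n = 1 → ζ ≠ 1 → ζ - 1 ∈ SS := by
    intro ζ h1 h2
    refine Finset.mem_image_of_mem _ (Finset.mem_filter.2 ⟨?_, h2⟩)
    rw [Multiset.mem_toFinset, Polynomial.mem_nthRoots hn]
    exact h1
  obtain ⟨Bad2, hBad2, hAR2⟩ := hAR k E SS Ctot (by
    intro s hs
    obtain ⟨ζ, h1, rfl⟩ := Finset.mem_image.1 hs
    exact sub_ne_zero.2 (Finset.mem_filter.1 h1).2)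
  have hS₁ : ∀ g, Semi K0 (g : E ≃ₐ[k] E).toRingEquiv (Φ₁ g) := semi_act hΦ₁
  -- the action on the places
  let mw : (E ≃ₐ[k] E) → Place E (L0 E K0 (U := U)) → Place E (L0 E K0 (U := U)) := fun g b =>
    (hS₁ g).im b
  have hmv : ∀ g b b', Moves (Φ₁ g) _ b b' ↔ mw g b = b' := fun g b b' => (hS₁ g).moves_iff b b'
  have hmvB : ∀ g b, BPl ℓ h b ↔ BPl ℓ h (mw g b) := fun g b =>
    hBPl g b _ ((hmv g b _).2 rfl)
  have hmv1 : ∀ b, mw 1 b = b := by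
    intro b
    rw [← hmv, map_one]
    exact moves_one b
  have hmvmul : ∀ g g' b, mw (g * g') b = mw g (mw g' b) := by
    intro g g' b
    rw [← hmv, map_mul]
    exact moves_comp (hS₁ g').L0_map ((hmv g' b _).2 rfl) ((hmv g _ _).2 rfl)
  have hmvinj : ∀ g b b', mw g b = mw g b' → b = b' := fun g b b' hb => (hS₁ g).im_inj hb
  have hgk : ∀ (g : E ≃ₐ[k] E) (a : k), g.toRingEquiv (algebraMap k E a) = algebraMap k E a :=
    fun g a => g.commutes a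
  refine ⟨Bad ∪ Bad2, hBad.union hBad2, ?_⟩
  intro c Φ hc hΦ hagree
  have hS : ∀ g, Semi K0 (g : E ≃ₐ[k] E).toRingEquiv (Φ g) := semi_act hΦ
  have hΦk : ∀ (g : E ≃ₐ[k] E) (a : k), Φ g (algebraMap k U a) = algebraMap k U a := by
    intro g a
    rw [IsScalarTower.algebraMap_apply k E U, hΦ.const, g.commutes]
  have hagN : ∀ g, ∀ x ∈ NN E K0 (ℓ ^ m) (U := U), Φ g x = Φ₁ g x := by
    intro g
    refine eq_on_adjoin (fun e => by rw [hΦ.const, hΦ₁.const]) ?_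
    rintro x (⟨y, rfl⟩ | hx)
    · rw [hΦ.fixK, hΦ₁.fixK]
    · exact hagree g x hx
  have hagL : ∀ g, ∀ x ∈ L0 E K0 (U := U), Φ g x = Φ₁ g x := fun g => (hS g).eq_on_L0 (hS₁ g)
  -- the action on the root of `h`
  have hroot : ∀ g : E ≃ₐ[k] E, ∃ θ : rootsOfUnity ℓ k, Φ g r' = algebraMap k U (mv θ) * r' ∧
      ∀ d : E, d ^ ℓ = algebraMap k E c → algebraMap k E (mv θ) * g d = d := by
    intro g
    have hΦ' : Act (K0 := K0) (q * ℓ) r c Φ := hq ▸ hΦ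
    rw [hr']
    exact act_root hμ hℓ hc hΦ' g
  -- the signs
  have hεex : ∀ (g : E ≃ₐ[k] E) (b b' : Place E (L0 E K0 (U := U))), ∃ ε : rootsOfUnity ℓ k,
      BPl ℓ h b → BPl ℓ h b' → b ≠ b' → Φ g (zz b b') = algebraMap k U (mv ε) * Φ₁ g (zz b b') := by
    intro g b b'
    by_cases hb : BPl ℓ h b ∧ BPl ℓ h b' ∧ b ≠ b'
    · obtain ⟨hb1, hb2, hne⟩ := hb
      obtain ⟨ε, hε⟩ := mu_of_pow hμ hℓ (hS g) (hS₁ g) (hzz b b' hb1 hb2 hne).1
        (hzz b b' hb1 hb2 hne).pow_mem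
      exact ⟨ε, fun _ _ _ => hε⟩
    · exact ⟨1, fun h1 h2 h3 => absurd ⟨h1, h2, h3⟩ hb⟩
  choose ε hε using hεex
  have hΦ₁0 : ∀ g b b', BPl ℓ h b → BPl ℓ h b' → b ≠ b' → Φ₁ g (zz b b') ≠ 0 :=
    fun g b b' hb hb' hne =>
      (map_ne_zero_iff (Φ₁ g) (Φ₁ g).injective).2 (hzz b b' hb hb' hne).1
  have hεu : ∀ g b b', BPl ℓ h b → BPl ℓ h b' → b ≠ b' → ∀ s : rootsOfUnity ℓ k,
      Φ g (zz b b') = algebraMap k U (mv s) * Φ₁ g (zz b b') → ε g b b' = s := by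
    intro g b b' hb hb' hne s hs
    have h1 := hε g b b' hb hb' hne
    rw [hs] at h1
    have h2 := mul_right_cancel₀ (hΦ₁0 g b b' hb hb' hne) h1
    exact (mv_inj ((algebraMap k U).injective h2)).symm
  -- the cocycle relation
  have hcoc : ∀ g g' b b', BPl ℓ h b → BPl ℓ h b' → b ≠ b' →
      ε (g * g') b b' = ε g' b b' * ε g (mw g' b) (mw g' b') := by
    intro g g' b b' hb hb' hne
    have hb1 : BPl ℓ h (mw g' b) := (hmvB g' b).1 hb
    have hb1' : BPl ℓ h (mw g' b') := (hmvB g' b').1 hb'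
    have hne1 : mw g' b ≠ mw g' b' := fun h1 => hne (hmvinj g' _ _ h1)
    refine hεu _ b b' hb hb' hne _ ?_
    obtain ⟨w, hw⟩ : ∃ w : U, w = Φ₁ g' (zz b b') * (zz (mw g' b) (mw g' b'))⁻¹ := ⟨_, rfl⟩
    have hwR : UR E K0 ℓ w := by
      rw [hw]
      exact ((hzz b b' hb hb' hne).map hF (hS₁ g')).div hF (hzz _ _ hb1 hb1' hne1)
    have hz0 := (hzz _ _ hb1 hb1' hne1).1
    have h1 : Φ₁ g' (zz b b') = w * zz (mw g' b) (mw g' b') := by
      rw [hw]; field_simp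
    have h2 : Φ g w = Φ₁ g w := hagree g w (ur_pow hF hm hℓ hwR)
    rw [map_mul, map_mul]
    show Φ g (Φ g' (zz b b')) = _ * Φ₁ g (Φ₁ g' (zz b b'))
    rw [hε g' b b' hb hb' hne, map_mul, hΦk, h1, map_mul, map_mul, h2,
      hε g _ _ hb1 hb1' hne1, mv_mul, map_mul]
    ring
  -- the set with action
  let Br : Type := {b : Place E (L0 E K0 (U := U)) // BPl ℓ h b}
  have hBrfin : Finite Br := hBfin
  let S : Type := {π : Br × Br // π.1 ≠ π.2}
  have hSfin : Finite S := Subtype.finite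
  let _ : MulAction (E ≃ₐ[k] E) S :=
    { smul := fun g π => ⟨(⟨mw g π.1.1.1, (hmvB g _).1 π.1.1.2⟩,
        ⟨mw g π.1.2.1, (hmvB g _).1 π.1.2.2⟩), fun h1 => π.2 (Subtype.ext
          (hmvinj g _ _ (congrArg (fun t : Br => t.1) h1)))⟩
      one_smul := fun π => by
        apply Subtype.ext
        exact Prod.ext (Subtype.ext (hmv1 _)) (Subtype.ext (hmv1 _))
      mul_smul := fun g g' π => by
        apply Subtype.ext
        exact Prod.ext (Subtype.ext (hmvmul g g' _)) (Subtype.ext (hmvmul g g' _)) }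
  have hneS : ∀ π : S, π.1.1.1 ≠ π.1.2.1 := fun π h1 => π.2 (Subtype.ext h1)
  obtain ⟨δ', hδ0, hδ⟩ := hCOC k E ℓ S (fun g π => ε g π.1.1.1 π.1.2.1) hℓ
    (fun g g' π => hcoc g g' _ _ π.1.1.2 π.1.2.2 (hneS π)) (by
      intro π
      obtain ⟨L1, hL1, h1⟩ := hΦ.cont (zz π.1.1.1 π.1.2.1)
      obtain ⟨L2, hL2, h2⟩ := hΦ₁.cont (zz π.1.1.1 π.1.2.1)
      obtain ⟨L3, hL3, h3⟩ := hst π.1.1.1
      obtain ⟨L4, hL4, h4⟩ := hst π.1.2.1
      refine ⟨(L1 ⊔ L2) ⊔ (L3 ⊔ L4), inferInstance, fun g hg => ?_⟩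
      have g1 : ∀ x ∈ L1, g x = x := fun x hx => hg x (le_sup_left (a := L1 ⊔ L2)
        (le_sup_left (a := L1) hx))
      have g2 : ∀ x ∈ L2, g x = x := fun x hx => hg x (le_sup_left (a := L1 ⊔ L2)
        (le_sup_right (b := L2) hx))
      have g3 : ∀ x ∈ L3, g x = x := fun x hx => hg x (le_sup_right (b := L3 ⊔ L4)
        (le_sup_left (a := L3) hx))
      have g4 : ∀ x ∈ L4, g x = x := fun x hx => hg x (le_sup_right (b := L3 ⊔ L4)
        (le_sup_right (b := L4) hx))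
      refine ⟨hεu g _ _ π.1.1.2 π.1.2.2 (hneS π) 1 ?_, ?_⟩
      · rw [h1 g g1, h2 g g2, mv_one, map_one, one_mul]
      · apply Subtype.ext
        exact Prod.ext (Subtype.ext ((hmv g _ _).1 (h3 g g3)))
          (Subtype.ext ((hmv g _ _).1 (h4 g g4))))
  -- the numbers `δ`
  let δ : Place E (L0 E K0 (U := U)) → Place E (L0 E K0 (U := U)) → E := fun b b' =>
    if hb : BPl ℓ h b ∧ BPl ℓ h b' ∧ b ≠ b' then
      δ' ⟨(⟨b, hb.1⟩, ⟨b', hb.2.1⟩), fun h1 => hb.2.2 (congrArg (fun t : Br => t.1) h1)⟩ else 1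
  have hδe : ∀ b b' (hb : BPl ℓ h b ∧ BPl ℓ h b' ∧ b ≠ b'), δ b b' =
      δ' ⟨(⟨b, hb.1⟩, ⟨b', hb.2.1⟩), fun h1 => hb.2.2 (congrArg (fun t : Br => t.1) h1)⟩ :=
    fun b b' hb => dif_pos hb
  have hδg : ∀ (g : E ≃ₐ[k] E) b b', BPl ℓ h b → BPl ℓ h b' → b ≠ b' →
      g (δ b b') = algebraMap k E (mv (ε g b b')) * δ (mw g b) (mw g b') := by
    intro g b b' hb hb' hne
    rw [hδe b b' ⟨hb, hb', hne⟩, hδe (mw g b) (mw g b') ⟨(hmvB g b).1 hb, (hmvB g b').1 hb',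
      fun h1 => hne (hmvinj g _ _ h1)⟩]
    exact hδ g _
  have hδne : ∀ b b', BPl ℓ h b → BPl ℓ h b' → b ≠ b' → δ b b' ≠ 0 := by
    intro b b' hb hb' hne
    rw [hδe b b' ⟨hb, hb', hne⟩]
    exact hδ0 _
  -- inertia fixes the branch points, and the reference action is trivial
  have hinert : ∀ v ∉ Bad ∪ Bad2, ∀ (O : ValuationSubring E) (F : E ≃ₐ[k] E) (p f : ℕ),
      DecPt v O F p f → ∀ τ : E ≃ₐ[k] E, Inert O τ.toRingEquiv →
      (∀ e ∈ Ctot, τ e = e) ∧ (∀ b, BPl ℓ h b → mw τ b = b) ∧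
      ∀ b b', BPl ℓ h b → BPl ℓ h b' → Φ₁ τ (zz b b') = zz b b' := by
    intro v hv O F p f hD τ hτ
    have hv1 : v ∉ Bad := fun h1 => hv (Or.inl h1)
    have hv2 : v ∉ Bad2 := fun h1 => hv (Or.inr h1)
    have h1 := (hAR2 v hv2 O hD.above).2 τ hτ
    refine ⟨h1, fun b hb => ?_, fun b b' hb hb' => ?_⟩
    · rw [← hmv]
      refine hCs b τ fun e he => h1 e ?_
      exact Finset.mem_union_right _ (Finset.mem_union_left _
        (Finset.mem_biUnion.2 ⟨b, (hBF b).2 hb, he⟩))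
    · refine (hloc v hv1 c₁ hc₁ Φ₁ hΦ₁ O F p f hD).1 τ hτ ?_ _
        (Finset.mem_union_left _ (hZ1 b b' hb hb'))
      intro d hd
      exact h1 d (Finset.mem_union_left _ (hD₁ d hd))
  -- the constants of a triple are fixed by inertia
  have hCπ : ∀ v ∉ Bad ∪ Bad2, ∀ (O : ValuationSubring E) (F : E ≃ₐ[k] E) (p f : ℕ),
      DecPt v O F p f → ∀ τ : E ≃ₐ[k] E, Inert O τ.toRingEquiv → ∀ b₀ b b',
      ord b₀.ring (inL0 h : L0 E K0 (U := U)) ≠ 0 → BPl ℓ h b → BPl ℓ h b' →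
      ∀ e ∈ Cn (b₀, b, b'), τ.toRingEquiv e = e := by
    intro v hv O F p f hD τ hτ b₀ b b' hb₀ hb hb' e he
    refine (hinert v hv O F p f hD τ hτ).1 e (Finset.mem_union_right _ (Finset.mem_union_right _
      (Finset.mem_biUnion.2 ⟨(b₀, b, b'), ?_, he⟩)))
    exact Finset.mem_product.2 ⟨(hOF b₀).2 hb₀, Finset.mem_product.2
      ⟨(hBF b).2 hb, (hBF b').2 hb'⟩⟩
  have hne0 : ∀ (d : ℕ) (b : Place E (L0 E K0 (U := U))),
      ¬ (d : ℤ) ∣ ord b.ring (inL0 h) → ord b.ring (inL0 h : L0 E K0 (U := U)) ≠ 0 := by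
    intro d b hb h0
    rw [h0] at hb
    exact hb (dvd_zero _)
  refine ⟨δ, hδne, ?_, ?_, ?_⟩
  · -- eqv
    intro g b b' a a' hb hb' hne ha ha'
    rw [hmv] at ha ha'
    rw [map_pow, hδg g b b' hb hb' hne, ha, ha', mul_pow, ← map_pow, mv_pow, map_one, one_mul]
  · -- even
    intro v hv O F p f hD τ hτ hτd b b' hb hb' hne
    obtain ⟨h1, h2, h3⟩ := hinert v hv O F p f hD τ hτ
    have hv1 : v ∉ Bad := fun h1 => hv (Or.inl h1)
    have hv2 : v ∉ Bad2 := fun h1 => hv (Or.inr h1)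
    have hloc' := hloc v hv1 c hc Φ hΦ O F p f hD
    have hz := hε τ b b' hb hb' hne
    rw [h3 b b' hb hb'] at hz
    have hε1 : ε τ b b' = 1 := by
      by_cases hfx : ∀ d : E, d ^ n = algebraMap k E c → τ d = d
      · have h4 := hloc'.1 τ hτ hfx _ (Finset.mem_union_left _ (hZ1 b b' hb hb'))
        refine hεu τ b b' hb hb' hne 1 ?_
        rw [h4, h3 b b' hb hb', mv_one, map_one, one_mul]
      · push Not at hfx
        obtain ⟨d₀, hd₀, hτd₀⟩ := hfx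
        have hram : IsRam n v c := ram_of_moved hn hD.above
          (fun ζ hζ hζ1 => (hAR2 v hv2 O hD.above).1 _ (hSS ζ hζ hζ1)) hτ hc hd₀ hτd₀
        obtain ⟨b₀, QN, hbQ, -, hτQ, hgr⟩ := hloc'.2 hram
        have hb₀n : ¬ (n : ℤ) ∣ ord b₀.ring (inL0 h : L0 E K0 (U := U)) := fun h5 =>
          hgr n dvd_rfl h5 hram
        have hb₀0 := hne0 n b₀ hb₀n
        have hzN : zz b b' ∈ N := hZN _ (Finset.mem_union_left _ (hZ1 b b' hb hb'))
        obtain ⟨hA, hB⟩ := hCn (b₀, b, b') hb hb' hne N hLN hr'N hzN QN hbQ _ _ (hS τ) (hτQ τ hτ)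
          (hCπ v hv O F p f hD τ hτ b₀ b b' hb₀0 hb hb') (hgk τ)
        obtain ⟨θ, hθ1, hθ2⟩ := hroot τ
        have hθ : θ = 1 := by
          obtain ⟨d, hd⟩ := IsAlgClosed.exists_pow_nat_eq (algebraMap k E c) hℓ
          have hd0 : d ≠ 0 := by
            rintro rfl
            rw [zero_pow hℓ.ne'] at hd
            exact hc ((_root_.map_eq_zero _).1 hd.symm)
          have h6 := hθ2 d hd
          rw [hτd d hd] at h6
          have h7 : algebraMap k E (mv θ) = 1 := mul_right_cancel₀ hd0 (by rw [h6, one_mul])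
          apply mv_inj
          apply (algebraMap k E).injective
          rw [h7, mv_one, map_one]
        by_cases hbℓ : BPl ℓ h b₀
        · obtain ⟨e, h8, -⟩ := hB _ _ hz hθ1
          refine mu_cancel hℓp hbℓ (u' := 1) ?_
          rw [h8, hθ, one_zpow, one_zpow]
        · refine hA ?_ ?_ _ hz
          · intro h9
            have h9' : b₀ = b := h9
            rw [h9'] at hbℓ
            exact hbℓ hb
          · intro h9
            have h9' : b₀ = b' := h9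
            rw [h9'] at hbℓ
            exact hbℓ hb'
    rw [hδg τ b b' hb hb' hne, hε1, h2 b hb, h2 b' hb', mv_one, map_one, one_mul]
  · -- odd
    intro v hv hodd O F p f hD
    have hv1 : v ∉ Bad := fun h1 => hv (Or.inl h1)
    have hramn : IsRam n v c := by
      intro d hd
      refine hodd (d ^ q) ?_
      rw [hd, map_pow, ← pow_mul, ← hq]
    obtain ⟨b₀, QN, hbQ, hFQ, hτQ, hgr⟩ := (hloc v hv1 c hc Φ hΦ O F p f hD).2 hramn
    have hb₀ : BPl ℓ h b₀ := fun h5 => hgr ℓ hℓn h5 hodd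
    have hb₀0 := hne0 ℓ b₀ hb₀
    obtain ⟨P, hPQ⟩ := exists_down (K0 := K0) (hNN2.trans hNNN)
      (fun x => L0_le_NN ℓ (hKL x)) hint QN
    obtain ⟨Q, hQQ⟩ := exists_down (K0 := K0) hNNN (fun x => L0_le_NN _ (hKL x)) hint QN
    have hbP : OverPl b₀ P := fun x hx hx' => by
      rw [hbQ x hx (hLN hx), ← hPQ x hx' (hLN hx)]
    have hPQ' : OverPl P Q := fun x hx hx' => by
      rw [hPQ x hx (hNNN hx'), ← hQQ x hx' (hNNN hx')]
    have hF0 : Moves (Φ F) _ b₀ b₀ := moves_over hLN hbQ hbQ hFQ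
    have hF1 : Moves (Φ F) _ Q Q := moves_over hNNN hQQ hQQ hFQ
    refine ⟨b₀, P, Q, hb₀, hbP, hPQ', moves_congr (hagL F) hF0, moves_congr (hagN F) hF1, hgr,
      ?_, ?_⟩
    · -- inertia
      intro τ hτ d hd hτd
      obtain ⟨h1, h2, h3⟩ := hinert v hv O F p f hD τ hτ
      obtain ⟨θ, hθ1, hθ2⟩ := hroot τ
      obtain ⟨ω, hω⟩ := mu_root hℓp hb₀ θ
      refine ⟨algebraMap k E (mv ω), ?_, ?_, ?_⟩
      · rw [← map_pow, mv_pow, map_one]
      · rw [← map_zpow₀, ← mv_zpow, hω]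
        exact hθ2 d hd
      intro b b' hb hb' hne
      have hm' := hτQ τ hτ
      have hzN : zz b b' ∈ N := hZN _ (Finset.mem_union_left _ (hZ1 b b' hb hb'))
      obtain ⟨hA, hB⟩ := hCn (b₀, b, b') hb hb' hne N hLN hr'N hzN QN hbQ _ _ (hS τ) hm'
        (hCπ v hv O F p f hD τ hτ b₀ b b' hb₀0 hb hb') (hgk τ)
      have hz := hε τ b b' hb hb' hne
      rw [h3 b b' hb hb'] at hz
      have hδτ := hδg τ b b' hb hb' hne
      rw [h2 b hb, h2 b' hb'] at hδτ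
      obtain ⟨e, he, he1, he2⟩ := hB _ _ hz hθ1
      refine ⟨fun hcase => ?_, fun hcase => ?_, fun hn1 hn2 => ?_⟩
      · have h5 : ε τ b b' = ω := by
          refine mu_cancel hℓp hb₀ ?_
          rw [hω, he, mu_zpow_congr θ (he1 hcase.symm), zpow_one]
        rw [hδτ, h5]
      · have h5 : ε τ b b' = ω⁻¹ := by
          refine mu_cancel hℓp hb₀ ?_
          rw [inv_zpow, hω, he]
          have h6 : (ℓ : ℤ) ∣ e - (-1) := by
            rw [sub_neg_eq_add]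
            exact he2 hcase.symm
          rw [mu_zpow_congr θ h6, zpow_neg_one]
        have hω0 : algebraMap k E (mv ω) ≠ 0 := (_root_.map_ne_zero _).2 (mv_ne ω)
        rw [hδτ, h5, mv_inv, map_inv₀, mul_inv_cancel_left₀ hω0]
      · have h5 : ε τ b b' = 1 := hA (Ne.symm hn1) (Ne.symm hn2) _ hz
        rw [hδτ, h5, mv_one, map_one, one_mul]
    · -- the sign of Frobenius
      intro b b' hb hb' hne hn1 hn2 j hmb hmb'
      have hzN : zz b b' ∈ N := hZN _ (Finset.mem_union_left _ (hZ1 b b' hb hb'))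
      have hNZN : NZ E K0 ℓ (zz b b') ≤ N := by
        refine adjoin_le_iff.2 ?_
        rintro w (hw | hw)
        · exact (hNN2.trans hNNN) (subset_adjoin _ _ hw)
        · have hw' : w = zz b b' := hw
          rw [hw']
          exact hzN
      obtain ⟨Q₀, hQ₀⟩ := exists_down (K0 := K0) hNZN
        (fun x => NN_le_NZ ℓ _ (L0_le_NN ℓ (hKL x))) hint QN
      have hPQ₀ : OverPl P Q₀ := fun x hx hx' => by
        rw [hPQ x hx (hNZN hx'), ← hQ₀ x hx' (hNZN hx')]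
      rw [← map_pow] at hmb hmb'
      rw [hmv] at hmb hmb'
      have hFN : ∀ x ∈ N, Φ F x ∈ N := fun x hx =>
        hNst (Φ F) (hΦ.fixK F) (fun e => ⟨F e, hΦ.const F e⟩) x hx
      have hFn : Moves (Φ (F ^ j)) N QN QN := by
        rw [map_pow]
        exact moves_pow hFN hFQ j
      have hsg : sgn ℓ (Φ₁ (F ^ j)) P (zz b b') = ε (F ^ j) b b' :=
        sgn_eq hμ hℓ hF (hzz b b' hb hb' hne) (Ne.symm hn1) (Ne.symm hn2) hbP hPQ₀ (hS₁ (F ^ j))
          (hS (F ^ j)) (hgk (F ^ j)) hmb hmb' (fun x hx => hagN (F ^ j) x (hNN2 hx))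
          (moves_over hNZN hQ₀ hQ₀ hFn) (hε (F ^ j) b b' hb hb' hne)
      rw [hδg (F ^ j) b b' hb hb' hne, hmb, hmb', ← map_pow, hsg]
      rfl

end Pool.Agent.ML
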