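import Pool.Agent.Helper45.ML.Defs
import Pool.Agent.Helper13.ML.DefsC

/-!
# Project ML (MP_e66f84_ag), the relative form: the locally soluble twists of prime degree `ℓ`
-/

set_option autoImplicit false

namespace Pool.Agent.ML

open NumberField IsDedekindDomain
open Pool.Agent.LN (IsRam)
open Pool.Agent.HG (Pr nm Ctx Gd)
open Pool.Agent.MP (SysR TAR)
open Pool.Agent.Helper99.ML (BTb WJb TBRb)

noncomputable section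

open scoped Classical in
/-- BLOCK G3R: the weights, with multiplicities, relative to the primes with a root, degree `ℓ`
(`MP.StmtG3K` is the case `ℓ = 2`).  The weight of `(v, e)` for `J` is at most
`m ℓ ^ (2 - o) ≤ m ℓ ^ (1 - m) ≤ 1` (`m` fixed roots in `J`, `o` orbits) if `F v` is not trivial
on `J`, and `j ℓ ^ (2 - j) < 1` at the split primes if `J` has `j` elements, `j ℓ ^ 2 < ℓ ^ j`. -/
def StmtG3R : Prop :=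
  HG.StmtMert → HG.StmtSplit → MP.StmtDK → M.StmtW3 → ∀ (k L : Type) [Field k] [NumberField k]
    [Field L] [NumberField L] [Algebra k L] [IsGalois k L] (f : Polynomial k) (ℓ : ℕ) [NeZero ℓ],
    ℓ.Prime → HasMu k ℓ → 0 < f.natDegree →
    (∀ J : Finset L, (∀ σ : L ≃ₐ[k] L, ∀ θ ∈ J, σ θ ∈ J) → (J : Set L) ⊆ f.rootSet L →
      ℓ ^ J.card ≤ J.card * ℓ ^ 2 →
      ∃ σ : L ≃ₐ[k] L, (∃ θ ∈ f.rootSet L, σ θ = θ) ∧ ∀ θ ∈ J, σ θ ≠ θ) →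
    ∀ K : ℕ, ∃ ε : ℝ, 0 < ε ∧ ∀ (X : Ctx k L f) (hm : 0 < X.m)
      (hfin : {v : Pr k | ¬ Gd X.M v}.Finite) (ι : Type) (Vι : Pr k → L → Finset ι)
      (w : L → Fin ℓ → ℕ)
      (g : Pr k × Fin ℓ → (Σ _ : L × rootsOfUnity ℓ k, ι) → L → rootsOfUnity ℓ k),
      (∀ v t, (Vι v t).card ≤ K) →
      ∀ Q : Set (Pr k), (∀ v ∉ Q, Gd X.M v → ∀ t, (Vι v t).card ≤ 1) →
      ∀ B : ℕ → Finset (Pr k), (∀ x v, v ∈ B x ↔ nm v ≤ x) → ∀ δ C : ℝ, δ ≤ ε →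
      (∀ x : ℕ, 2 ≤ x → |∑ v ∈ (B x).filter (· ∈ Q), (1 : ℝ) / nm v -
        δ * Real.log (Real.log x)| ≤ C) →
      SysR (Pr k × Fin ℓ) (fun p => nm p.1) {p | ¬ ℓ ∣ (p.2 : ℕ) ∧ (X.Fx p.1).Nonempty}
        (((ℓ - 1 : ℕ) : ℝ) *
          ((Nat.card {σ : L ≃ₐ[k] L // ∃ θ ∈ X.Ω, σ θ = θ} : ℝ) / Nat.card (L ≃ₐ[k] L))) ∧
      (∃ K' : ℕ, ∀ p, ((cdL X ℓ ℓ hm hfin ι Vι (fun _ _ => True) w g).V p).card ≤ K') ∧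
      ∀ J : Finset (Fin X.m),
        TAR (cdL X ℓ ℓ hm hfin ι Vι (fun _ _ => True) w g)
          {p : Pr k × Fin ℓ | ¬ ℓ ∣ (p.2 : ℕ) ∧ (X.Fx p.1).Nonempty} J ∨
        TBRb (cdL X ℓ ℓ hm hfin ι Vι (fun _ _ => True) w g) (1 / ℓ)
          {p : Pr k × Fin ℓ | ¬ ℓ ∣ (p.2 : ℕ) ∧ (X.Fx p.1).Nonempty}
          (((ℓ - 1 : ℕ) : ℝ) *
            ((Nat.card {σ : L ≃ₐ[k] L // ∃ θ ∈ X.Ω, σ θ = θ} : ℝ) / Nat.card (L ≃ₐ[k] L))) J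

open scoped Classical in
/-- BLOCK LOWK (from `MP.StmtPIT`): weighted lower bound (`MP.StmtLOWK` is the case `w = 1`). -/
def StmtLOWK : Prop :=
  MP.StmtPIT → HG.StmtMert → ∀ (k L : Type) [Field k] [NumberField k] [Field L] [NumberField L]
    [Algebra k L] [IsGalois k L] (w : ℕ), 1 ≤ w → ∀ (Bad Q : Set (Pr k)) (κ C : ℝ), Bad.Finite →
    0 < κ → κ ≤ 1 →
    (∀ v ∉ Bad, MP.Spl k L v → v ∈ Q) → ∀ B : ℕ → Finset (Pr k), (∀ x v, v ∈ B x ↔ nm v ≤ x) →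
    (∀ x : ℕ, 2 ≤ x →
      |∑ v ∈ (B x).filter (· ∈ Q), (1 : ℝ) / nm v - κ * Real.log (Real.log x)| ≤ C) →
    ∃ c₀ : ℝ, 0 < c₀ ∧ ∀ x : ℕ, 3 ≤ x → ∃ S : Finset (Finset (Pr k)),
      (∀ s ∈ S, ∏ v ∈ s, nm v ≤ x ∧ ∀ v ∈ s, v ∈ Q ∧ v ∉ Bad) ∧
      c₀ * x * Real.log x ^ ((w : ℝ) * κ - 1) ≤ ∑ s ∈ S, (w : ℝ) ^ s.card

/-- BLOCK LOWC (pigeonhole, with labels): from sets of primes of `Q` to classes `c` in the coset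
`c₀ W` with `v ∈ Q` for all `v ∉ Sg` with `n ∤ v(c)` (`MP.StmtLOWC` is the case `n = 2`); every set
`s` gives `(n - 1) ^ |s|` classes, for all choices of the valuations modulo `n` at the `v ∈ s`. -/
def StmtLOWC : Prop :=
  ∀ (k : Type) [Field k] [NumberField k] (n : ℕ), 2 ≤ n → ∀ (W : Subgroup kˣ), W.FiniteIndex →
    ∀ (Q Sg : Set (Pr k)), Sg.Finite → ∀ c₀ : kˣ, (∀ v ∉ Sg, IsRam n v (c₀ : k) → v ∈ Q) →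
    ∃ (Bad : Set (Pr k)) (D N : ℕ), Bad.Finite ∧ 0 < D ∧ 0 < N ∧
      ∀ (Y : ℕ) (S : Finset (Finset (Pr k))),
      (∀ s ∈ S, ∏ v ∈ s, nm v ≤ Y ∧ ∀ v ∈ s, v ∈ Q ∧ v ∉ Bad) →
      ∃ T : Finset kˣ, (∀ c ∈ T, ∀ c' ∈ T, (∃ d : k, (c : k) = c' * d ^ n) → c = c') ∧
        (∀ c ∈ T, LN.cond n (c : k) ≤ D * Y ∧ c₀⁻¹ * c ∈ W ∧
          ∀ v ∉ Sg, IsRam n v (c : k) → v ∈ Q) ∧
        ∑ s ∈ S, (n - 1) ^ s.card ≤ N * T.card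

end

end Pool.Agent.ML
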