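import Pool.Agent.Helper45.ML.INTc

/-!
# Project ML, block INT: roots of unity, the inertia relation, the root `r ^ (n / ℓ)`
-/

set_option autoImplicit false

namespace Pool.Agent.ML

open VC IntermediateField NumberField IsDedekindDomain Pool.Agent.SC
open Pool.Agent.L (Inert L0 MM SamePlace OverV)
open Pool.Agent.LN (Geo Act HasSec GoodCurve IsRam DecPt)
open Pool.Agent.M
open Pool.Agent.HG (Pr nm Ctx Gd)

section mu

variable {k : Type} [Field k] {ℓ : ℕ}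

theorem mu_pow (u : rootsOfUnity ℓ k) : u ^ ℓ = 1 := by
  apply mv_inj
  rw [mv_one, ← mv_pow u]
  rfl

theorem mv_zpow (u : rootsOfUnity ℓ k) (a : ℤ) : mv (u ^ a) = mv u ^ a := by
  unfold mv
  rw [Subgroup.coe_zpow, Units.val_zpow_eq_zpow_val]

theorem mv_inv (u : rootsOfUnity ℓ k) : mv u⁻¹ = (mv u)⁻¹ := by
  unfold mv
  rw [Subgroup.coe_inv, Units.val_inv_eq_inv_val]

theorem mu_zpow_congr (u : rootsOfUnity ℓ k) {a b : ℤ} (h : (ℓ : ℤ) ∣ a - b) : u ^ a = u ^ b := by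
  obtain ⟨x, hx⟩ := h
  have e : a = b + ℓ * x := by linarith
  rw [e, zpow_add, zpow_mul, zpow_natCast, mu_pow, one_zpow, mul_one]

theorem mu_root (hℓ : ℓ.Prime) {a : ℤ} (ha : ¬ (ℓ : ℤ) ∣ a) (θ : rootsOfUnity ℓ k) :
    ∃ ω : rootsOfUnity ℓ k, ω ^ a = θ := by
  have hp : Prime (ℓ : ℤ) := Nat.prime_iff_prime_int.1 hℓ
  have hc : IsCoprime (ℓ : ℤ) a := (Prime.coprime_iff_not_dvd hp).2 ha
  obtain ⟨x, y, hxy⟩ := hc
  refine ⟨θ ^ y, ?_⟩
  rw [← zpow_mul]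
  have h1 : θ ^ (y * a) = θ ^ (1 : ℤ) := mu_zpow_congr θ ⟨-x, by linear_combination hxy⟩
  rw [h1, zpow_one]

theorem mu_cancel (hℓ : ℓ.Prime) {a : ℤ} (ha : ¬ (ℓ : ℤ) ∣ a) {u u' : rootsOfUnity ℓ k}
    (h : u ^ a = u' ^ a) : u = u' := by
  have hp : Prime (ℓ : ℤ) := Nat.prime_iff_prime_int.1 hℓ
  have hc : IsCoprime (ℓ : ℤ) a := (Prime.coprime_iff_not_dvd hp).2 ha
  obtain ⟨x, y, hxy⟩ := hc
  have h1 : ∀ w : rootsOfUnity ℓ k, w = (w ^ a) ^ y := by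
    intro w
    rw [← zpow_mul]
    have h2 : w ^ (a * y) = w ^ (1 : ℤ) := mu_zpow_congr w ⟨-x, by linear_combination hxy⟩
    rw [h2, zpow_one]
  rw [h1 u, h, ← h1 u']

end mu

section rel

variable {k E U : Type} [Field k] [Field E] [Field U] [Algebra E U] [Algebra k E] [Algebra k U]
  [IsScalarTower k E U]
  {K0 : Type} [Field K0] [Algebra K0 U]

/-- The relation between the actions of an inertia element on two `ℓ`-th roots. -/
theorem inert_rel {ℓ : ℕ} [IsAlgClosed E] (hμ : HasMu k ℓ) (hℓ : 0 < ℓ)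
    (hF : IsFunctionField E (L0 E K0 (U := U)))
    (b₀ : Place E (L0 E K0 (U := U))) {f g : L0 E K0 (U := U)} (hf : f ≠ 0) (hg : g ≠ 0) :
    ∃ C : Finset E, ∀ z r' : U, z ^ ℓ = f → r' ^ ℓ = g → ∀ N : IntermediateField E U,
      L0 E K0 (U := U) ≤ N → z ∈ N → r' ∈ N → ∀ Q : Place E N, OverPl b₀ Q →
      ∀ (σ : E ≃+* E) (T : U ≃+* U),
      Semi K0 σ T → Moves T N Q Q → (∀ e ∈ C, σ e = e) →
      (∀ a : k, σ (algebraMap k E a) = algebraMap k E a) → ∀ s θ : rootsOfUnity ℓ k,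
      T z = algebraMap k U (mv s) * z → T r' = algebraMap k U (mv θ) * r' →
      s ^ ord b₀.ring g = θ ^ ord b₀.ring f := by
  have hG0 : f ^ ord b₀.ring g * (g ^ ord b₀.ring f)⁻¹ ≠ 0 :=
    mul_ne_zero (zpow_ne_zero _ hf) (inv_ne_zero (zpow_ne_zero _ hg))
  have hord : (ℓ : ℤ) ∣ ord b₀.ring (f ^ ord b₀.ring g * (g ^ ord b₀.ring f)⁻¹) := by
    rw [FF.ord_mul hF b₀ (zpow_ne_zero _ hf) (inv_ne_zero (zpow_ne_zero _ hg)),
      FF.ord_inv hF b₀ (zpow_ne_zero _ hg), FF.ord_zpow hF b₀ hf, FF.ord_zpow hF b₀ hg]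
    have e : ord b₀.ring g * ord b₀.ring f + -(ord b₀.ring f * ord b₀.ring g) = 0 := by ring
    rw [e]
    exact dvd_zero _
  obtain ⟨C, hC⟩ := inert_sign hμ hℓ hF b₀ hG0 hord
  refine ⟨C, fun z r' hz hr' N hLN hzN hrN Q hQ σ T hT hm hσ hσk s θ hs hθ => ?_⟩
  have h1 := hC (z ^ ord b₀.ring g * (r' ^ ord b₀.ring f)⁻¹) ?_ N hLN
    (mul_mem (zpow_mem hzN _) (inv_mem (zpow_mem hrN _))) Q hQ σ T hT hm hσ hσk
    (s ^ ord b₀.ring g * (θ ^ ord b₀.ring f)⁻¹) ?_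
  · exact mul_inv_eq_one.1 h1
  · rw [mul_pow, inv_pow, ← zpow_natCast (z ^ _), ← zpow_natCast (r' ^ _), ← zpow_mul, ← zpow_mul,
      mul_comm _ (ℓ : ℤ), mul_comm _ (ℓ : ℤ), zpow_mul, zpow_mul, zpow_natCast, zpow_natCast, hz,
      hr']
    have e : ∀ (x : L0 E K0 (U := U)) (a : ℤ), ((x ^ a : L0 E K0 (U := U)) : U) = (x : U) ^ a :=
      fun x a => map_zpow₀ (algebraMap (L0 E K0 (U := U)) U) x a
    show _ = ((f ^ ord b₀.ring g : L0 E K0 (U := U)) : U) *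
      ((g ^ ord b₀.ring f : L0 E K0 (U := U)) : U)⁻¹
    rw [e, e]
  · rw [map_mul, map_inv₀, map_zpow₀, map_zpow₀, hs, hθ, mv_mul, mv_inv, mv_zpow, mv_zpow, map_mul,
      map_inv₀, map_zpow₀, map_zpow₀, mul_zpow, mul_zpow, mul_inv]
    ring

end rel

section root

/-- the action on the `ℓ`-th root `r ^ q` of `h` (`n = q ℓ`) -/
theorem act_root {k K0 E U : Type} [Field k] [Field K0] [Field E] [Field U] [Algebra k K0]
    [Algebra k E] [Algebra E U] [Algebra K0 U] [Algebra k U] [IsScalarTower k E U] {ℓ q : ℕ}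
    {r : U} {c : k} {Φ : (E ≃ₐ[k] E) →* (U ≃+* U)} (hμ : HasMu k ℓ) (hℓ : 0 < ℓ) (hc : c ≠ 0)
    (hΦ : Act (K0 := K0) (q * ℓ) r c Φ) (g : E ≃ₐ[k] E) :
    ∃ θ : rootsOfUnity ℓ k, Φ g (r ^ q) = algebraMap k U (mv θ) * r ^ q ∧
      ∀ d : E, d ^ ℓ = algebraMap k E c → algebraMap k E (mv θ) * g d = d := by
  obtain ⟨d₀, hd₀, htw⟩ := hΦ.tw
  obtain ⟨d', hd'⟩ : ∃ d' : E, d' = d₀ ^ q := ⟨_, rfl⟩
  have hd'ℓ : d' ^ ℓ = algebraMap k E c := by rw [hd', ← pow_mul, hd₀]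
  have hcE : algebraMap k E c ≠ 0 := (_root_.map_ne_zero _).2 hc
  have hne : ∀ d : E, d ^ ℓ = algebraMap k E c → d ≠ 0 := by
    rintro d hd rfl
    rw [zero_pow hℓ.ne'] at hd
    exact hcE hd.symm
  obtain ⟨η, hη⟩ := exists_mu hμ hℓ (hne d' hd'ℓ) (x := g d') (by
    rw [← map_pow, hd'ℓ, g.commutes])
  have hηE : algebraMap k E (mv η) ≠ 0 := (_root_.map_ne_zero _).2 (mv_ne η)
  have hηU : algebraMap k U (mv η) ≠ 0 := (_root_.map_ne_zero _).2 (mv_ne η)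
  refine ⟨η⁻¹, ?_, fun d hd => ?_⟩
  · have h1 := congrArg (fun x => x ^ q) (htw g)
    simp only [mul_pow] at h1
    rw [← map_pow, ← map_pow, ← map_pow, ← map_pow, ← hd', hη, map_mul,
      ← IsScalarTower.algebraMap_apply] at h1
    have h2 : algebraMap E U d' ≠ 0 := (_root_.map_ne_zero _).2 (hne d' hd'ℓ)
    rw [mv_inv, map_inv₀]
    apply mul_right_cancel₀ (mul_ne_zero hηU h2)
    rw [h1]
    field_simp
  · obtain ⟨ξ, hξ⟩ := exists_mu hμ hℓ (hne d' hd'ℓ) (x := d) (by rw [hd, hd'ℓ])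
    rw [hξ, map_mul, g.commutes, hη, mv_inv, map_inv₀]
    field_simp

end root

/-- If an inertia element moves an `n`-th root of `c`, then `v(c)` is not divisible by `n`. -/
theorem ram_of_moved {k E : Type} [Field k] [NumberField k] [Field E] [Algebra k E] {n : ℕ}
    (hn0 : 0 < n) {v : Pr k} {O : ValuationSubring E} (hO : OverV v O)
    (hS : ∀ ζ : E, ζ ^ n = 1 → ζ ≠ 1 → O.valuation (ζ - 1) = 1) {τ : E ≃ₐ[k] E}
    (hτ : Inert O τ.toRingEquiv) {c : k} (hc : c ≠ 0) {d₀ : E} (hd₀ : d₀ ^ n = algebraMap k E c)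
    (hτd₀ : τ d₀ ≠ d₀) : IsRam n v c := by
  intro d hd
  have hd₀0 : d₀ ≠ 0 := by
    intro h0
    rw [h0, map_zero] at hτd₀
    exact hτd₀ rfl
  have hd0 : d ≠ 0 := by
    intro h0
    rw [h0, map_zero, zero_pow hn0.ne'] at hd
    exact (Valuation.ne_zero_iff _).2 hc hd
  have hdE : algebraMap k E d ≠ 0 := (_root_.map_ne_zero _).2 hd0
  have hu2 : v.valuation k (c / d ^ n) = 1 := by
    rw [map_div₀, map_pow, hd]
    exact div_self (pow_ne_zero n ((Valuation.ne_zero_iff _).2 hd0))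
  have h2 : O.valuation (algebraMap k E (c / d ^ n)) = 1 := by
    apply le_antisymm
    · rw [O.valuation_le_one_iff]
      exact (hO _).2 hu2.le
    · have h3 : O.valuation (algebraMap k E (c / d ^ n)⁻¹) ≤ 1 := by
        rw [O.valuation_le_one_iff]
        refine (hO _).2 ?_
        rw [map_inv₀, hu2, inv_one]
      rw [map_inv₀, map_inv₀] at h3
      refine (inv_le_one₀ (zero_lt_iff.2 ?_)).1 h3
      rw [Valuation.ne_zero_iff, _root_.map_ne_zero]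
      exact div_ne_zero hc (pow_ne_zero n hd0)
  have h3 : (d₀ / algebraMap k E d) ^ n = algebraMap k E (c / d ^ n) := by
    rw [div_pow, hd₀, map_div₀, map_pow]
  have h4 : O.valuation (d₀ / algebraMap k E d) = 1 := by
    rw [← h3, map_pow] at h2
    exact (pow_eq_one_iff_of_nonneg zero_le hn0.ne').1 h2
  have h5 : d₀ / algebraMap k E d ∈ O := by
    rw [← O.valuation_le_one_iff, h4]
  have h6 := hτ.res _ h5
  have hζ1 : (τ d₀ / d₀) ^ n = 1 := by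
    rw [div_pow, ← map_pow, hd₀, AlgEquiv.commutes, div_self]
    exact (_root_.map_ne_zero _).2 hc
  have hζ2 : τ d₀ / d₀ ≠ 1 := by
    intro h0
    exact hτd₀ ((div_eq_one_iff_eq hd₀0).1 h0)
  have h7 : τ.toRingEquiv (d₀ / algebraMap k E d) - d₀ / algebraMap k E d =
      (τ d₀ / d₀ - 1) * (d₀ / algebraMap k E d) := by
    have h8 : τ.toRingEquiv (d₀ / algebraMap k E d) = τ d₀ / algebraMap k E d := by
      show τ (d₀ / algebraMap k E d) = _
      rw [map_div₀, AlgEquiv.commutes]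
    rw [h8]
    field_simp
  rw [h7, map_mul, hS _ hζ1 hζ2, h4, mul_one] at h6
  exact lt_irrefl _ h6

end Pool.Agent.ML
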