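import Pool.Agent.Helper45.ML.Defs
import Pool.Agent.Helper45.M.INTf

/-!
# Project ML, block INT: preparations
-/

set_option autoImplicit false

namespace Pool.Agent.ML

open VC IntermediateField NumberField IsDedekindDomain Pool.Agent.SC
open Pool.Agent.L (Inert L0 MM SamePlace OverV)
open Pool.Agent.LN (Geo Act HasSec GoodCurve IsRam DecPt)
open Pool.Agent.M
open Pool.Agent.HG (Pr nm Ctx Gd)

/-! ## Roots of unity -/

section mu

variable {k : Type} [Field k] {ℓ : ℕ}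

/-- the value in `k` -/
def mv (ε : rootsOfUnity ℓ k) : k := ((ε : kˣ) : k)

theorem mv_pow (ε : rootsOfUnity ℓ k) : mv ε ^ ℓ = 1 := by
  have h := (mem_rootsOfUnity' ℓ (ε : kˣ)).1 ε.2
  exact h

theorem mv_ne (ε : rootsOfUnity ℓ k) : mv ε ≠ 0 := (ε : kˣ).ne_zero

theorem mv_mul (ε ε' : rootsOfUnity ℓ k) : mv (ε * ε') = mv ε * mv ε' := rfl

theorem mv_one : mv (1 : rootsOfUnity ℓ k) = 1 := rfl

theorem mv_inj {ε ε' : rootsOfUnity ℓ k} (h : mv ε = mv ε') : ε = ε' :=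
  Subtype.ext (Units.ext h)

theorem exists_mv {a : k} (hℓ : 0 < ℓ) (ha : a ^ ℓ = 1) : ∃ ε : rootsOfUnity ℓ k, mv ε = a := by
  have h0 : a ≠ 0 := by
    rintro rfl
    rw [zero_pow hℓ.ne'] at ha
    exact zero_ne_one ha
  refine ⟨⟨Units.mk0 a h0, ?_⟩, rfl⟩
  rw [mem_rootsOfUnity']
  exact ha

/-- elements with the same `ℓ`-th power -/
theorem exists_mu {B : Type} [Field B] [Algebra k B] (hμ : HasMu k ℓ) (hℓ : 0 < ℓ) {x y : B}
    (hy : y ≠ 0) (h : x ^ ℓ = y ^ ℓ) : ∃ ε : rootsOfUnity ℓ k, x = algebraMap k B (mv ε) * y := by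
  obtain ⟨ζ, hζ⟩ := hμ
  have hζB : IsPrimitiveRoot (algebraMap k B ζ) ℓ := hζ.map_of_injective (algebraMap k B).injective
  have h1 : (x / y) ^ ℓ = 1 := by rw [div_pow, h, div_self (pow_ne_zero _ hy)]
  have : NeZero ℓ := ⟨hℓ.ne'⟩
  obtain ⟨i, -, hi⟩ := hζB.eq_pow_of_pow_eq_one h1
  obtain ⟨ε, hε⟩ := exists_mv (k := k) (a := ζ ^ i) hℓ (by
    rw [← pow_mul, mul_comm, pow_mul, hζ.pow_eq_one, one_pow])
  refine ⟨ε, ?_⟩
  rw [hε, map_pow, hi, div_mul_cancel₀ _ hy]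

/-- the residue of a root -/
theorem cg_of_pow {E B : Type} [Field E] [Field B] [Algebra E B] [Algebra k E] [Algebra k B]
    [IsScalarTower k E B] (hμ : HasMu k ℓ) (hℓ : 0 < ℓ) {V : ValuationSubring B} {x : B} {c : E}
    (h : Cg V (x ^ ℓ) (c ^ ℓ)) : ∃ ε : rootsOfUnity ℓ k, Cg V x (algebraMap k E (mv ε) * c) := by
  classical
  obtain ⟨ζ, hζ⟩ := hμ
  have hζB : IsPrimitiveRoot (algebraMap k B ζ) ℓ := hζ.map_of_injective (algebraMap k B).injective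
  have h1 := hζB.pow_sub_pow_eq_prod_sub_mul x (algebraMap E B c) hℓ
  unfold Cg at h
  rw [map_pow, h1, map_prod] at h
  by_contra hcon
  push Not at hcon
  refine absurd h (not_lt.2 ?_)
  have h2 : ∀ s : Finset B, (∀ η ∈ s, η ^ ℓ = 1) →
      1 ≤ ∏ η ∈ s, V.valuation (x - η * algebraMap E B c) := by
    intro s
    induction s using Finset.induction_on with
    | empty => intro _; simp
    | insert η s hη ih =>
      intro hs
      rw [Finset.prod_insert hη]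
      refine one_le_mul ?_ (ih fun η' hη' => hs η' (Finset.mem_insert_of_mem hη'))
      have : NeZero ℓ := ⟨hℓ.ne'⟩
      obtain ⟨i, -, hi⟩ := hζB.eq_pow_of_pow_eq_one (hs η (Finset.mem_insert_self _ _))
      obtain ⟨ε, hε⟩ := exists_mv (k := k) (a := ζ ^ i) hℓ (by
        rw [← pow_mul, mul_comm, pow_mul, hζ.pow_eq_one, one_pow])
      have h3 := hcon ε
      unfold Cg at h3
      rw [not_lt, map_mul, ← IsScalarTower.algebraMap_apply, hε, map_pow, hi] at h3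
      exact h3
  refine h2 _ fun η hη => ?_
  rw [Polynomial.mem_nthRootsFinset hℓ] at hη
  exact hη

end mu

section ur

variable {E U : Type} [Field E] [IsAlgClosed E] [Field U] [Algebra E U]
  {K0 : Type} [Field K0] [Algebra K0 U] {σ : E ≃+* E} {T : U ≃+* U}
  (hF : IsFunctionField E (L0 E K0 (U := U)))

include hF in
theorem ur_pow {ℓ : ℕ} {w : U} {m : ℕ} (hm : 1 ≤ m) (hℓ : 0 < ℓ) (h : UR E K0 ℓ w) :
    UR E K0 (ℓ ^ m) w := by
  obtain ⟨h0, f, hf, hord⟩ := h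
  have hf0 : f ≠ 0 := by
    rintro rfl
    exact pow_ne_zero ℓ h0 hf.symm
  obtain ⟨m', rfl⟩ : ∃ m', m = m' + 1 := ⟨m - 1, by omega⟩
  refine ⟨h0, f ^ ℓ ^ m', ?_, fun P => ?_⟩
  · rw [pow_succ' ℓ m', pow_mul, ← hf]
    rfl
  · rw [FF.ord_pow hF P hf0, pow_succ]
    push_cast
    exact mul_dvd_mul_left _ (hord P)

include hF in
theorem IsZ.map {ℓ : ℕ} {b b' : Place E (L0 E K0 (U := U))} {z : U} (hT : Semi K0 σ T)
    (h : IsZ ℓ b b' z) : IsZ ℓ (hT.im b) (hT.im b') (T z) := by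
  obtain ⟨h0, f, hf, h1, h2, h3⟩ := h
  refine ⟨(map_ne_zero_iff T T.injective).2 h0, hT.re f, ?_, ?_, ?_, fun P hP hP' => ?_⟩
  · rw [← map_pow, ← hf]
    rfl
  · rw [hT.ord_im hF]
    exact h1
  · rw [hT.ord_im hF]
    exact h2
  · obtain ⟨a, rfl⟩ := hT.im_surj P
    rw [hT.ord_im hF]
    exact h3 a (fun h4 => hP (by rw [h4])) fun h4 => hP' (by rw [h4])

include hF in
theorem IsZ.div {ℓ : ℕ} {b b' : Place E (L0 E K0 (U := U))} {z z' : U} (h : IsZ ℓ b b' z)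
    (h' : IsZ ℓ b b' z') : UR E K0 ℓ (z * z'⁻¹) := by
  classical
  obtain ⟨h0, f, hf, h1, h2, h3⟩ := h
  obtain ⟨h0', f', hf', h1', h2', h3'⟩ := h'
  have hf0 : f ≠ 0 := by
    rintro rfl
    exact pow_ne_zero ℓ h0 hf.symm
  have hf0' : f' ≠ 0 := by
    rintro rfl
    exact pow_ne_zero ℓ h0' hf'.symm
  refine ⟨mul_ne_zero h0 (inv_ne_zero h0'), f * f'⁻¹, ?_, fun P => ?_⟩
  · rw [mul_pow, inv_pow, ← hf, ← hf']
    rfl
  · rw [FF.ord_mul hF P hf0 (inv_ne_zero hf0'), FF.ord_inv hF P hf0']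
    by_cases hb : P = b
    · subst hb
      have h4 := dvd_sub h1 h1'
      have e : ord P.ring f - 1 - (ord P.ring f' - 1) = ord P.ring f + -ord P.ring f' := by ring
      rwa [e] at h4
    · by_cases hb' : P = b'
      · subst hb'
        have h4 := dvd_sub h2 h2'
        have e : ord P.ring f + 1 - (ord P.ring f' + 1) = ord P.ring f + -ord P.ring f' := by ring
        rwa [e] at h4
      · exact dvd_add (h3 P hb hb') ((dvd_neg).2 (h3' P hb hb'))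

omit [IsAlgClosed E] in
theorem IsZ.pow_mem {ℓ : ℕ} {b b' : Place E (L0 E K0 (U := U))} {z : U} (h : IsZ ℓ b b' z) :
    z ^ ℓ ∈ L0 E K0 (U := U) := by
  obtain ⟨-, f, hf, -⟩ := h
  rw [← hf]
  exact f.2

omit [IsAlgClosed E] in
theorem mu_of_pow {k : Type} [Field k] [Algebra k U] {ℓ : ℕ} (hμ : HasMu k ℓ) (hℓ : 0 < ℓ)
    {T' : U ≃+* U} (hT : Semi K0 σ T) (hT' : Semi K0 σ T') {z : U} (hz0 : z ≠ 0)
    (hz : z ^ ℓ ∈ L0 E K0 (U := U)) :
    ∃ ε : rootsOfUnity ℓ k, T z = algebraMap k U (mv ε) * T' z := by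
  have h1 := hT.eq_on_L0 hT' _ hz
  rw [map_pow, map_pow] at h1
  exact exists_mu hμ hℓ ((map_ne_zero_iff T' T'.injective).2 hz0) h1

/-- A normalised root: `y ^ ℓ = f / t ^ ℓ` has a value `ρ ^ ℓ ≠ 0` at `b₀`. -/
theorem exists_norm {ℓ : ℕ} (hℓ : 0 < ℓ) (hF : IsFunctionField E (L0 E K0 (U := U)))
    (b₀ : Place E (L0 E K0 (U := U))) {f : L0 E K0 (U := U)} (hf : f ≠ 0)
    (hord : (ℓ : ℤ) ∣ ord b₀.ring f) :
    ∃ (t : L0 E K0 (U := U)) (ρ : E), t ≠ 0 ∧ ρ ≠ 0 ∧ Cg b₀.ring (f / t ^ ℓ) (ρ ^ ℓ) := by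
  obtain ⟨m, hm⟩ := hord
  obtain ⟨t, ht, htm⟩ := FF.exists_ord_eq hF b₀ m
  have h0 : f / t ^ ℓ ≠ 0 := div_ne_zero hf (pow_ne_zero ℓ ht)
  have h1 : ord b₀.ring (f / t ^ ℓ) = 0 := by
    rw [FF.ord_div hF b₀ hf (pow_ne_zero ℓ ht), FF.ord_pow hF b₀ ht, htm, hm]
    ring
  obtain ⟨c, hc⟩ := FF.exists_residue hF b₀ ((FF.ord_nonneg_iff hF b₀ h0).1 h1.ge)
  obtain ⟨ρ, hρ⟩ := IsAlgClosed.exists_pow_nat_eq c hℓ
  have hc' : Cg b₀.ring (f / t ^ ℓ) c := b₀.ring.mem_nonunits_iff.1 hc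
  refine ⟨t, ρ, ht, ?_, by rw [hρ]; exact hc'⟩
  rintro rfl
  rw [zero_pow hℓ.ne'] at hρ
  subst hρ
  have h2 : 0 < ord b₀.ring (f / t ^ ℓ) := by
    rw [FF.ord_pos_iff hF b₀ h0, b₀.ring.mem_nonunits_iff]
    have h3 := hc'
    unfold Cg at h3
    rwa [map_zero, sub_zero] at h3
  omega

end ur

section levels

variable {E U : Type} [Field E] [Field U] [Algebra E U]
  {K0 : Type} [Field K0] [Algebra K0 U] {σ : E ≃+* E} {T : U ≃+* U}

theorem NN_le_NZ (n : ℕ) (z : U) : NN E K0 n ≤ NZ E K0 n z :=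
  adjoin.mono E _ _ Set.subset_union_left

theorem mem_NZ (n : ℕ) (z : U) : z ∈ NZ E K0 n z := subset_adjoin _ _ (Or.inr rfl)

end levels

end Pool.Agent.ML
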