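import Pool.Agent.Helper45.ML.INTa

/-!
# Project ML, block INT: the sign is computed by the reference action; inertia
-/

set_option autoImplicit false

namespace Pool.Agent.ML

open VC IntermediateField NumberField IsDedekindDomain Pool.Agent.SC
open Pool.Agent.L (Inert L0 MM SamePlace OverV)
open Pool.Agent.LN (Geo Act HasSec GoodCurve IsRam DecPt)
open Pool.Agent.M
open Pool.Agent.HG (Pr nm Ctx Gd)

theorem cg_pow {E B : Type} [Field E] [Field B] [Algebra E B] {V : ValuationSubring B}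
    (hE : ∀ e : E, algebraMap E B e ∈ V) {x : B} {c : E} (h : Cg V x c) (n : ℕ) :
    Cg V (x ^ n) (c ^ n) := by
  induction n with
  | zero =>
    have h1 := cg_const (V := V) (1 : E)
    rw [map_one] at h1
    rw [pow_zero, pow_zero]
    exact h1
  | succ n ih =>
    rw [pow_succ, pow_succ]
    exact ih.mul hE h

section

variable {k E U : Type} [Field k] [Field E] [Field U] [Algebra E U] [Algebra k E] [Algebra k U]
  [IsScalarTower k E U]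
  {K0 : Type} [Field K0] [Algebra K0 U] {σ : E ≃+* E} {T T' : U ≃+* U} {ℓ : ℕ}

theorem sgn_eq [IsAlgClosed E] (hμ : HasMu k ℓ) (hℓ : 0 < ℓ)
    (hF : IsFunctionField E (L0 E K0 (U := U)))
    {b b' b₀ : Place E (L0 E K0 (U := U))} {z : U} (hz : IsZ ℓ b b' z) (h0 : b₀ ≠ b)
    (h0' : b₀ ≠ b') {P : Place E (NN E K0 ℓ (U := U))} (hP : OverPl b₀ P)
    {Q₀ : Place E (NZ E K0 ℓ z)} (hQ₀ : OverPl P Q₀) (hT : Semi K0 σ T) (hT' : Semi K0 σ T')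
    (hσk : ∀ a : k, σ (algebraMap k E a) = algebraMap k E a)
    (hTb : hT.im b = b) (hTb' : hT.im b' = b') (hAg : ∀ x ∈ NN E K0 ℓ (U := U), T' x = T x)
    (hmQ : Moves T' _ Q₀ Q₀) {ε : rootsOfUnity ℓ k}
    (hε : T' z = algebraMap k U (mv ε) * T z) : sgn ℓ T P z = ε := by
  classical
  have hTz : IsZ ℓ b b' (T z) := by
    have := hz.map hF hT
    rwa [hTb, hTb'] at this
  have huR : UR E K0 ℓ (T z * z⁻¹) := hTz.div hF hz
  obtain ⟨hz0, f, hf, hord1, hord2, hord⟩ := hz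
  have hf0 : f ≠ 0 := by
    rintro rfl
    exact pow_ne_zero ℓ hz0 hf.symm
  obtain ⟨t, ρ, ht0, hρ0, hcg⟩ := exists_norm hℓ hF b₀ hf0 (hord b₀ h0 h0')
  have htU : (t : U) ≠ 0 := fun h => ht0 (Subtype.ext h)
  have hLN : L0 E K0 (U := U) ≤ NN E K0 ℓ := L0_le_NN ℓ
  have hNZ : NN E K0 ℓ ≤ NZ E K0 ℓ z := NN_le_NZ ℓ z
  have hzB : z ∈ NZ E K0 ℓ z := mem_NZ ℓ z
  have hQE : ∀ (Q : Place E (NZ E K0 ℓ z)) (e : E), algebraMap E (NZ E K0 ℓ z) e ∈ Q.ring :=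
    fun Q e => Q.algebraMap_mem e
  have hkN : ∀ (N : IntermediateField E U) (a : k), algebraMap k U a ∈ N := fun N a => by
    rw [IsScalarTower.algebraMap_apply k E U]
    exact N.algebraMap_mem _
  have hmb : Moves T _ b₀ b₀ := by
    have h1 : OverPl b₀ Q₀ := over_trans hLN hP hQ₀
    exact moves_congr (fun x hx => hAg x (hLN hx)) (moves_over (hLN.trans hNZ) h1 h1 hmQ)
  -- the values of `z / t`
  have hyB : ∀ t' : U, t' ∈ L0 E K0 (U := U) → z * t' ∈ NZ E K0 ℓ z := fun t' ht' =>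
    mul_mem hzB (hNZ (hLN ht'))
  have hval : ∀ Q : Place E (NZ E K0 ℓ z), OverPl P Q → ∃ η : rootsOfUnity ℓ k,
      Cg Q.ring (⟨z * (t : U)⁻¹, hyB _ (inv_mem t.2)⟩ : NZ E K0 ℓ z)
        (algebraMap k E (mv η) * ρ) := by
    intro Q hQ
    refine cg_of_pow hμ hℓ ?_
    have h1 : OverPl b₀ Q := over_trans hLN hP hQ
    have hx : ((f / t ^ ℓ : L0 E K0 (U := U)) : U) ∈ NZ E K0 ℓ z := hNZ (hLN (f / t ^ ℓ).2)
    have h2 := (h1.cg (f / t ^ ℓ).2 hx (c := ρ ^ ℓ)).1 hcg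
    have e : (⟨z * (t : U)⁻¹, hyB _ (inv_mem t.2)⟩ : NZ E K0 ℓ z) ^ ℓ =
        ⟨((f / t ^ ℓ : L0 E K0 (U := U)) : U), hx⟩ := by
      apply Subtype.ext
      show (z * (t : U)⁻¹) ^ ℓ = (f : U) / (t : U) ^ ℓ
      rw [mul_pow, inv_pow, ← hf, div_eq_mul_inv]
    rw [e]
    exact h2
  have hσmv : ∀ η : rootsOfUnity ℓ k, σ (algebraMap k E (mv η)) = algebraMap k E (mv η) :=
    fun η => hσk _
  have hk0 : ∀ η : rootsOfUnity ℓ k, algebraMap k E (mv η) ≠ 0 := fun η =>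
    (_root_.map_ne_zero _).2 (mv_ne η)
  -- the unit `u` of `NN ℓ`: `T (z s) = u (z s)`, `s = 1 / t`
  obtain ⟨u, hu⟩ : ∃ u : U, u = T z * z⁻¹ * t * (T t)⁻¹ := ⟨_, rfl⟩
  have hTt : T (t : U) ≠ 0 := (map_ne_zero_iff T T.injective).2 htU
  have huA : u ∈ NN E K0 ℓ (U := U) := by
    rw [hu]
    exact mul_mem (mul_mem huR.mem (hLN t.2)) (inv_mem (hLN (hT.L0_map _ t.2)))
  have hTy : T (z * (t : U)⁻¹) = u * (z * (t : U)⁻¹) := by
    rw [hu, map_mul, map_inv₀]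
    field_simp
  have hTy' : T' (z * (t : U)⁻¹) = algebraMap k U (mv ε) * (u * (z * (t : U)⁻¹)) := by
    rw [← hTy, map_mul, map_mul, map_inv₀, map_inv₀, hε, hAg t (hLN t.2)]
    ring
  obtain ⟨y, hy⟩ : ∃ y : U, y = z * (t : U)⁻¹ := ⟨_, rfl⟩
  have hyB' : y ∈ NZ E K0 ℓ z := by rw [hy]; exact hyB _ (inv_mem t.2)
  have hy0 : y ≠ 0 := by rw [hy]; exact mul_ne_zero hz0 (inv_ne_zero htU)
  simp only [← hy] at hval hTy hTy'
  obtain ⟨η₀, hη₀⟩ := hval Q₀ hQ₀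
  obtain ⟨ρ₀, hρ₀⟩ : ∃ ρ₀ : E, ρ₀ = algebraMap k E (mv η₀) * ρ := ⟨_, rfl⟩
  rw [← hρ₀] at hη₀
  have hρ₀0 : ρ₀ ≠ 0 := by rw [hρ₀]; exact mul_ne_zero (hk0 _) hρ0
  have hTyB' : T' y ∈ NZ E K0 ℓ z := by
    rw [hTy']; exact mul_mem (hkN _ _) (mul_mem (hNZ huA) hyB')
  -- the value of `u`
  obtain ⟨u₀, hu₀⟩ : ∃ u₀ : E, u₀ = (algebraMap k E (mv ε))⁻¹ * σ ρ₀ * ρ₀⁻¹ := ⟨_, rfl⟩
  have hu1 : Cg Q₀.ring (⟨u, hNZ huA⟩ : NZ E K0 ℓ z) u₀ := by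
    have h1 : Cg Q₀.ring (⟨T' y, hTyB'⟩ : NZ E K0 ℓ z) (σ ρ₀) :=
      (hmQ.cg hT'.const hyB' hTyB').1 hη₀
    have h2 := (((cg_const (V := Q₀.ring) ((algebraMap k E (mv ε))⁻¹)).mul (hQE Q₀) h1).mul
      (hQE Q₀) (hη₀.inv (hQE Q₀) hρ₀0))
    have e : (algebraMap E (NZ E K0 ℓ z) (algebraMap k E (mv ε))⁻¹ * ⟨T' y, hTyB'⟩ *
        (⟨y, hyB'⟩ : NZ E K0 ℓ z)⁻¹) = ⟨u, hNZ huA⟩ := by
      apply Subtype.ext
      show algebraMap E U (algebraMap k E (mv ε))⁻¹ * T' y * y⁻¹ = u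
      rw [map_inv₀, ← IsScalarTower.algebraMap_apply, hTy']
      have h3 : algebraMap k U (mv ε) ≠ 0 := (_root_.map_ne_zero _).2 (mv_ne ε)
      field_simp
    rw [e, ← hu₀] at h2
    exact h2
  have huQ : ∀ Q : Place E (NZ E K0 ℓ z), OverPl P Q →
      Cg Q.ring (⟨u, hNZ huA⟩ : NZ E K0 ℓ z) u₀ := fun Q hQ =>
    (hQ.cg huA (hNZ huA)).1 ((hQ₀.cg huA (hNZ huA)).2 hu1)
  have hTyB : T y ∈ NZ E K0 ℓ z := by rw [hTy]; exact mul_mem (hNZ huA) hyB'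
  -- the value of `T y` at the places over `P`
  have hTyQ : ∀ (Q : Place E (NZ E K0 ℓ z)), OverPl P Q → ∃ η : rootsOfUnity ℓ k,
      Cg Q.ring (⟨y, hyB'⟩ : NZ E K0 ℓ z) (algebraMap k E (mv η) * ρ₀) ∧
      Cg Q.ring (⟨T y, hTyB⟩ : NZ E K0 ℓ z)
        ((algebraMap k E (mv ε))⁻¹ * σ (algebraMap k E (mv η) * ρ₀)) := by
    intro Q hQ
    obtain ⟨η, hη⟩ := hval Q hQ
    have e1 : algebraMap k E (mv η) * ρ = algebraMap k E (mv (η * η₀⁻¹)) * ρ₀ := by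
      have e2 : mv η = mv (η * η₀⁻¹) * mv η₀ := by
        rw [← mv_mul, inv_mul_cancel_right]
      rw [hρ₀, e2, map_mul]
      ring
    rw [e1] at hη
    refine ⟨η * η₀⁻¹, hη, ?_⟩
    have h2 := (huQ Q hQ).mul (hQE Q) hη
    have e : (⟨u, hNZ huA⟩ : NZ E K0 ℓ z) * ⟨y, hyB'⟩ = ⟨T y, hTyB⟩ := Subtype.ext hTy.symm
    rw [e] at h2
    have e3 : u₀ * (algebraMap k E (mv (η * η₀⁻¹)) * ρ₀) =
        (algebraMap k E (mv ε))⁻¹ * σ (algebraMap k E (mv (η * η₀⁻¹)) * ρ₀) := by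
      rw [hu₀, map_mul, hσmv]
      field_simp
    rw [e3] at h2
    exact h2
  -- the value for any multiple
  have key : ∀ (Q : Place E (NZ E K0 ℓ z)), OverPl P Q → ∀ s ∈ L0 E K0 (U := U), ∀ ρ₁ : E,
      ρ₁ ≠ 0 → ∀ x x' : NZ E K0 ℓ z, (x : U) = z * s → (x' : U) = T (z * s) →
      Cg Q.ring x ρ₁ → Cg Q.ring x' ((algebraMap k E (mv ε))⁻¹ * σ ρ₁) := by
    intro Q hQ s hs ρ₁ hρ₁ x x' hx hx' hcgx
    obtain ⟨η, h1, h2⟩ := hTyQ Q hQ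
    -- the quotient is in `L0`
    have hst : s * t ∈ L0 E K0 (U := U) := mul_mem hs t.2
    have hq : Cg Q.ring (⟨s * t, hNZ (hLN hst)⟩ : NZ E K0 ℓ z)
        (ρ₁ * (algebraMap k E (mv η) * ρ₀)⁻¹) := by
      have h3 := hcgx.mul (hQE Q) (h1.inv (hQE Q) (mul_ne_zero (hk0 _) hρ₀0))
      have e : x * (⟨y, hyB'⟩ : NZ E K0 ℓ z)⁻¹ = ⟨s * t, hNZ (hLN hst)⟩ := by
        apply Subtype.ext
        show (x : U) * y⁻¹ = s * t
        rw [hx, hy]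
        field_simp
      rw [e] at h3
      exact h3
    have hb₀Q : OverPl b₀ Q := over_trans hLN hP hQ
    have hb1 := (hb₀Q.cg hst (hNZ (hLN hst))).2 hq
    have hTst : T (s * t) ∈ L0 E K0 (U := U) := hT.L0_map _ hst
    have hb2 := (hmb.cg hT.const hst hTst).1 hb1
    have hb3 := (hb₀Q.cg hTst (hNZ (hLN hTst))).1 hb2
    have h3 := h2.mul (hQE Q) hb3
    have e : (⟨T y, hTyB⟩ : NZ E K0 ℓ z) * ⟨T (s * t), hNZ (hLN hTst)⟩ = x' := by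
      apply Subtype.ext
      show T y * T (s * t) = (x' : U)
      rw [hx', ← map_mul, hy]
      congr 1
      field_simp
    rw [e] at h3
    have e2 : (algebraMap k E (mv ε))⁻¹ * σ (algebraMap k E (mv η) * ρ₀) *
        σ (ρ₁ * (algebraMap k E (mv η) * ρ₀)⁻¹) = (algebraMap k E (mv ε))⁻¹ * σ ρ₁ := by
      rw [mul_assoc, ← map_mul]
      congr 2
      have := mul_ne_zero (hk0 η) hρ₀0
      rw [mul_comm ρ₁, mul_inv_cancel_left₀ this]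
    rw [e2] at h3
    exact h3
  have hk1 : algebraMap k E (mv ε) ≠ 0 := hk0 ε
  have hIs : IsSg ℓ T P z ε := by
    intro Q hQ s hs ρ₁ ρ' hρ₁ hρ' x x' hx hx' hval'
    have hρ'' : ρ' = σ ρ₁ := (algebraMap E U).injective (by rw [← hρ', hT.const])
    obtain ⟨X, hX⟩ : ∃ X : NZ E K0 ℓ z, X = x + algebraMap E _ ρ₁ := ⟨_, rfl⟩
    obtain ⟨Y, hY⟩ : ∃ Y : NZ E K0 ℓ z, Y =
      (algebraMap E _ (algebraMap k E (mv ε)))⁻¹ * (x' + algebraMap E _ ρ') := ⟨_, rfl⟩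
    have hX1 : (X : U) = z * s := by
      rw [hX]
      show (x : U) + algebraMap E U ρ₁ = z * s
      rw [hx]; ring
    have hkU : algebraMap k U (mv ε) ≠ 0 := (_root_.map_ne_zero _).2 (mv_ne ε)
    have hY1 : (Y : U) = T (z * s) := by
      rw [hY]
      show (algebraMap E U (algebraMap k E (mv ε)))⁻¹ * ((x' : U) + algebraMap E U ρ') = _
      rw [← IsScalarTower.algebraMap_apply, hx']
      change (algebraMap k U (mv ε))⁻¹ * (algebraMap k U (mv ε) * T (z * s) - _ + _) = _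
      rw [sub_add_cancel, inv_mul_cancel_left₀ hkU]
    have h1 : Cg Q.ring X ρ₁ := by
      unfold Cg
      rw [hX, add_sub_cancel_right]
      exact hval'
    have h2 := key Q hQ s hs ρ₁ hρ₁ X Y hX1 hY1 h1
    have h3 := (cg_const (V := Q.ring) (algebraMap k E (mv ε))).mul (hQE Q) h2
    rw [mul_inv_cancel_left₀ hk1] at h3
    have hkB : algebraMap E (NZ E K0 ℓ z) (algebraMap k E (mv ε)) ≠ 0 :=
      (_root_.map_ne_zero _).2 hk1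
    have e : x' = algebraMap E _ (algebraMap k E (mv ε)) * Y - algebraMap E _ (σ ρ₁) := by
      rw [hY, mul_inv_cancel_left₀ hkB, hρ'', add_sub_cancel_right]
    rw [e]
    exact h3
  unfold sgn
  rw [dif_pos ⟨ε, hIs⟩]
  obtain ⟨ε₁, hε₁⟩ : ∃ ε₁, ε₁ = (⟨ε, hIs⟩ : ∃ ε : rootsOfUnity ℓ k, IsSg ℓ T P z ε).choose :=
    ⟨_, rfl⟩
  rw [← hε₁]
  have hIs₁ : IsSg ℓ T P z ε₁ := by
    rw [hε₁]
    exact (⟨ε, hIs⟩ : ∃ ε : rootsOfUnity ℓ k, IsSg ℓ T P z ε).choose_spec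
  have hinv : (t : U)⁻¹ ∈ L0 E K0 (U := U) := inv_mem t.2
  have hx0 : Q₀.ring.valuation ((⟨y, hyB'⟩ : NZ E K0 ℓ z) - algebraMap E _ ρ₀) < 1 := hη₀
  have hσρ₀ : σ ρ₀ ≠ 0 := (map_ne_zero_iff σ σ.injective).2 hρ₀0
  have step : ∀ ε' : rootsOfUnity ℓ k, IsSg ℓ T P z ε' →
      Cg Q₀.ring (⟨T y, hTyB⟩ : NZ E K0 ℓ z) ((algebraMap k E (mv ε'))⁻¹ * σ ρ₀) := by
    intro ε' h
    have h1 := h Q₀ hQ₀ _ hinv ρ₀ (σ ρ₀) hρ₀0 (hT.const ρ₀)
      ((⟨y, hyB'⟩ : NZ E K0 ℓ z) - algebraMap E _ ρ₀)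
      (algebraMap E _ (algebraMap k E (mv ε')) * (⟨T y, hTyB⟩ : NZ E K0 ℓ z) -
        algebraMap E _ (σ ρ₀)) (by
        show y - algebraMap E U ρ₀ = _
        rw [hy]) (by
        show algebraMap E U (algebraMap k E (mv ε')) * T y - algebraMap E U (σ ρ₀) = _
        rw [← IsScalarTower.algebraMap_apply, hy]
        rfl) hx0
    have h2 : Cg Q₀.ring (algebraMap E _ (algebraMap k E (mv ε')) *
      (⟨T y, hTyB⟩ : NZ E K0 ℓ z)) (σ ρ₀) := h1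
    have h3 := (cg_const (V := Q₀.ring) (algebraMap k E (mv ε'))⁻¹).mul (hQE Q₀) h2
    have hkB : algebraMap E (NZ E K0 ℓ z) (algebraMap k E (mv ε')) ≠ 0 :=
      (_root_.map_ne_zero _).2 (hk0 ε')
    rw [map_inv₀, inv_mul_cancel_left₀ hkB] at h3
    exact h3
  have h5 := (step ε₁ hIs₁).unique (hQE Q₀) (step ε hIs)
  have h6 := mul_right_cancel₀ hσρ₀ h5
  exact mv_inj ((algebraMap k E).injective (inv_injective h6))

end

end Pool.Agent.ML
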