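import Pool.Agent.Helper45.ML.INTb

/-!
# Project ML, block INT: inertia
-/

set_option autoImplicit false

namespace Pool.Agent.ML

open VC IntermediateField NumberField IsDedekindDomain Pool.Agent.SC
open Pool.Agent.L (Inert L0 MM SamePlace OverV)
open Pool.Agent.LN (Geo Act HasSec GoodCurve IsRam DecPt)
open Pool.Agent.M
open Pool.Agent.HG (Pr nm Ctx Gd)

section

variable {k E U : Type} [Field k] [Field E] [Field U] [Algebra E U] [Algebra k E] [Algebra k U]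
  [IsScalarTower k E U]
  {K0 : Type} [Field K0] [Algebra K0 U]

/-- An inertia element fixes an `ℓ`-th root of a function whose order at the branch point is
divisible by `ℓ`. -/
theorem inert_sign {ℓ : ℕ} [IsAlgClosed E] (hμ : HasMu k ℓ) (hℓ : 0 < ℓ)
    (hF : IsFunctionField E (L0 E K0 (U := U)))
    (b₀ : Place E (L0 E K0 (U := U))) {f : L0 E K0 (U := U)} (hf : f ≠ 0)
    (hord : (ℓ : ℤ) ∣ ord b₀.ring f) :
    ∃ C : Finset E, ∀ w : U, w ^ ℓ = f → ∀ N : IntermediateField E U,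
      L0 E K0 (U := U) ≤ N → w ∈ N → ∀ Q : Place E N, OverPl b₀ Q → ∀ (σ : E ≃+* E) (T : U ≃+* U),
      Semi K0 σ T → Moves T N Q Q → (∀ e ∈ C, σ e = e) →
      (∀ a : k, σ (algebraMap k E a) = algebraMap k E a) → ∀ s : rootsOfUnity ℓ k,
      T w = algebraMap k U (mv s) * w → s = 1 := by
  classical
  obtain ⟨t, ρ, ht0, hρ0, hcg⟩ := exists_norm hℓ hF b₀ hf hord
  obtain ⟨C, hC⟩ := fix_of_const (E := E) (K0 := K0) (t : U) t.2
  refine ⟨insert ρ C, fun w hw N hLN hwN Q hQ σ T hT hm hσ hσk s hs => ?_⟩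
  have hTt : T (t : U) = t := hC T hT.fixK fun e he => by
    rw [hT.const, hσ e (Finset.mem_insert_of_mem he)]
  have hσρ : σ ρ = ρ := hσ ρ (Finset.mem_insert_self _ _)
  obtain ⟨y, hy⟩ : ∃ y : U, y = w / t := ⟨_, rfl⟩
  have hyN : y ∈ N := by rw [hy]; exact div_mem hwN (hLN t.2)
  have hy2 : y ^ ℓ = ((f / t ^ ℓ : L0 E K0 (U := U)) : U) := by
    rw [hy, div_pow, hw]
    rfl
  have hTy : T y = algebraMap k U (mv s) * y := by rw [hy, map_div₀, hTt, hs, mul_div_assoc]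
  have hTyN : T y ∈ N := by
    rw [hTy, IsScalarTower.algebraMap_apply k E U]; exact mul_mem (N.algebraMap_mem _) hyN
  have hQE : ∀ e : E, algebraMap E N e ∈ Q.ring := Q.algebraMap_mem
  obtain ⟨η, h1⟩ : ∃ η : rootsOfUnity ℓ k, Cg Q.ring (⟨y, hyN⟩ : N) (algebraMap k E (mv η) * ρ) := by
    refine cg_of_pow hμ hℓ ?_
    have hx : ((f / t ^ ℓ : L0 E K0 (U := U)) : U) ∈ N := hLN (f / t ^ ℓ).2
    have h4 := (hQ.cg (f / t ^ ℓ).2 hx (c := ρ ^ ℓ)).1 hcg
    have e : (⟨y, hyN⟩ : N) ^ ℓ = ⟨((f / t ^ ℓ : L0 E K0 (U := U)) : U), hx⟩ := Subtype.ext hy2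
    rw [e]
    exact h4
  have hη0 : algebraMap k E (mv η) ≠ 0 := (_root_.map_ne_zero _).2 (mv_ne η)
  have hρ₁ : algebraMap k E (mv η) * ρ ≠ 0 := mul_ne_zero hη0 hρ0
  have hσρ₁ : σ (algebraMap k E (mv η) * ρ) = algebraMap k E (mv η) * ρ := by
    rw [map_mul, hσk, hσρ]
  have h3 := (hm.cg hT.const hyN hTyN).1 h1
  rw [hσρ₁] at h3
  have h4 : Cg Q.ring (⟨T y, hTyN⟩ : N) (algebraMap k E (mv s) * (algebraMap k E (mv η) * ρ)) := by
    have h5 := (cg_const (V := Q.ring) (algebraMap k E (mv s))).mul hQE h1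
    have e : algebraMap E N (algebraMap k E (mv s)) * ⟨y, hyN⟩ = (⟨T y, hTyN⟩ : N) := by
      apply Subtype.ext
      show algebraMap E U (algebraMap k E (mv s)) * y = T y
      rw [← IsScalarTower.algebraMap_apply, hTy]
    rw [e] at h5
    exact h5
  have h5 := h4.unique hQE h3
  have h6 : algebraMap k E (mv s) = 1 := mul_right_cancel₀ hρ₁ (by rw [h5, one_mul])
  have h7 : mv s = mv (1 : rootsOfUnity ℓ k) := by
    apply (algebraMap k E).injective
    rw [h6, mv_one, map_one]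
  exact mv_inj h7

end

end Pool.Agent.ML
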